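import Pool.Agent.TWX.Cv2
import Pool.Agent.FOR.NPs
import Pool.Agent.FOR.NLev
import Pool.Agent.ORB.Gen

/-!
MODULE TWX-Dg (est. 1 h).  The coordinates of the generator as polynomials, degrees, points.

PLAN.  Models: `Pool/Agent/TWB/Deg.lean`, `Pool/Agent/TWB/Fin.lean` (`dg_totalDegree`, `sz_pow_le`,
`map_gen`, `full_eq`, `mem_hit`, `card_hit`; there over `ℚ`).
`map_gen`: `FOR.map_Ps`, `map_sum`.  `full_eq`: unfold `PhiP` (`aeval_X`), `crv2`, `rename` is a ring
homomorphism (`map_Ps` for it), `Polynomial.aeval_X_pow`.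
`deg_full`: `totalDegree_add`, `totalDegree_mul`, `totalDegree_finset_sum`, `FOR.dg_Ps` for
the degree function `totalDegree` (a `FOR.Dg`): `Ps` has degree `≤ sz^240 * 1 + 1`; `z * Ps`
has degree `≤ sz^240 + 2`; `y * u ^ i` has degree `≤ 1 + i ≤ n`; `sz_lev_le` gives
`sz^240 ≤ 2^3840 (max n w + 1)^480`.
`mem_pts`, `card_pts`: as `mem_hit`, `card_hit` (`Finset.card_image_le`, `Finset.card_product`,
`Fintype.card_piFinset`).
-/

set_option autoImplicit false

namespace Pool.Agent.TWX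

open MvPolynomial
open Pool.Agent.FOR (Ps lev)
open Pool.Agent.ORB (PhiP)

universe u

theorem map_gen {R S : Type*} [CommSemiring R] [CommSemiring S] (φ : R →+* S) (m c : ℕ)
    (t e z t' e' : R) (y u : Fin c → R) (i : ℕ) :
    φ (gen m c t e z t' e' y u i) = gen m c (φ t) (φ e) (φ z) (φ t') (φ e') (fun l => φ (y l))
      (fun l => φ (u l)) i := by
  unfold gen
  rw [map_add, map_add, map_mul, FOR.map_Ps φ, FOR.map_Ps φ, map_sum]
  simp only [map_mul, map_pow]

/-- The coordinates of the generator as polynomials in the parameters. -/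
noncomputable def full (K : Type u) [Field K] (n m c : ℕ) (i : Fin n) :
    MvPolynomial (Fin 5 ⊕ (Fin c ⊕ Fin c)) K :=
  gen m c (X (Sum.inl 0)) (X (Sum.inl 1)) (X (Sum.inl 2)) (X (Sum.inl 3)) (X (Sum.inl 4))
    (fun l => X (Sum.inr (Sum.inl l))) (fun l => X (Sum.inr (Sum.inr l))) (i : ℕ)

theorem full_eq (K : Type u) [Field K] (n m c : ℕ) (f : MvPolynomial (Fin n) K) :
    PhiP (fun i : Fin n => (Polynomial.X ^ (i : ℕ) : Polynomial K)) (crv2 K n m) c f =
      aeval (full K n m c) f := by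
  unfold PhiP
  congr 2
  funext i
  unfold full gen crv2
  have h1 := FOR.map_Ps (rename (Sum.inl : Fin 5 → Fin 5 ⊕ (Fin c ⊕ Fin c)) :
    MvPolynomial (Fin 5) K →ₐ[K] _).toRingHom m
  simp only [AlgHom.toRingHom_eq_coe, RingHom.coe_coe] at h1
  rw [map_add, map_mul, h1, h1]
  simp only [rename_X, map_pow, Polynomial.aeval_X]

private theorem dg_tot (R : Type*) [CommSemiring R] (σ : Type*) :
    FOR.Dg (fun p : MvPolynomial σ R => p.totalDegree) where
  add := fun x y => totalDegree_add x y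
  mul := fun x y => totalDegree_mul x y
  nat := fun n => by
    have h : ((n : ℕ) : MvPolynomial σ R) = C (n : R) := (map_natCast C n).symm
    show totalDegree ((n : ℕ) : MvPolynomial σ R) = 0
    rw [h]
    exact totalDegree_C _

private theorem sz_pow_le' (m : ℕ) : FOR.sz (lev m) ^ 240 ≤ 2 ^ 3840 * (m + 1) ^ 480 := by
  refine (Nat.pow_le_pow_left (FOR.sz_lev_le m) 240).trans (le_of_eq ?_)
  rw [mul_pow, ← pow_mul, ← pow_mul]

private theorem tot_Ps (K : Type u) [Field K] {σ : Type*} (a b : σ) (L : ℕ) {i : ℕ}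
    (hi : i < FOR.sz L) :
    (Ps L (X a) (X b) i : MvPolynomial σ K).totalDegree ≤ FOR.sz L ^ 240 + 1 := by
  have h := FOR.dg_Ps (dg_tot K σ) L i hi (X a) (X b)
  refine h.trans ?_
  have h0 : (X a : MvPolynomial σ K).totalDegree = 1 := totalDegree_X a
  have h1 : (X b : MvPolynomial σ K).totalDegree = 1 := totalDegree_X b
  show FOR.sz L ^ 240 * (X a : MvPolynomial σ K).totalDegree +
    (X b : MvPolynomial σ K).totalDegree ≤ _
  rw [h0, h1, mul_one]

theorem deg_full (K : Type u) [Field K] (n w c : ℕ) (i : Fin n) :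
    (full K n (lev (max n w)) c i).totalDegree ≤ deg n w := by
  have hi : (i : ℕ) < FOR.sz (lev (max n w)) :=
    i.2.trans_le ((le_max_left _ _).trans (FOR.le_sz_lev _))
  have h1 := sz_pow_le' (max n w)
  have h2 : (max n w + 1) ^ 480 ≤ (n + w + 1) ^ 480 := by
    refine Nat.pow_le_pow_left ?_ _
    have := max_le (Nat.le_add_right n w) (Nat.le_add_left w n)
    omega
  have h3 := Nat.mul_le_mul_left (2 ^ 3840) h2
  have h4 : FOR.sz (lev (max n w)) ^ 240 + n + 2 ≤ deg n w := by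
    unfold deg
    have h5 := h1.trans h3
    omega
  refine le_trans ?_ h4
  unfold full gen
  refine (totalDegree_add _ _).trans (max_le ((totalDegree_add _ _).trans (max_le ?_ ?_)) ?_)
  · refine (tot_Ps K _ _ _ hi).trans ?_
    omega
  · refine (totalDegree_mul _ _).trans ?_
    have h5 := tot_Ps K (Sum.inl 3 : Fin 5 ⊕ (Fin c ⊕ Fin c)) (Sum.inl 4) _ hi
    have h6 : (X (Sum.inl 2) : MvPolynomial (Fin 5 ⊕ (Fin c ⊕ Fin c)) K).totalDegree = 1 :=
      totalDegree_X _
    omega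
  · refine totalDegree_finsetSum_le fun l _ => ?_
    show (X (Sum.inr (Sum.inl l)) * X (Sum.inr (Sum.inr l)) ^ (i : ℕ) :
      MvPolynomial (Fin 5 ⊕ (Fin c ⊕ Fin c)) K).totalDegree ≤ _
    refine (totalDegree_mul _ _).trans ?_
    have h6 : (X (Sum.inr (Sum.inl l)) :
        MvPolynomial (Fin 5 ⊕ (Fin c ⊕ Fin c)) K).totalDegree = 1 := totalDegree_X _
    have h7 : (X (Sum.inr (Sum.inr l)) ^ (i : ℕ) :
        MvPolynomial (Fin 5 ⊕ (Fin c ⊕ Fin c)) K).totalDegree = i := totalDegree_X_pow _ _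
    have h8 := i.2
    rw [h6, h7]
    omega

theorem mem_pts (K : Type u) [Field K] {n m c B : ℕ} (s : Fin 5 ⊕ (Fin c ⊕ Fin c) → ℕ)
    (hs : ∀ j, s j ≤ B) :
    ∃ x ∈ pts n m c B, ∀ i, ((x i : ℕ) : K) = eval (fun j => (s j : K)) (full K n m c i) := by
  classical
  refine ⟨fun i => gen m c (s (Sum.inl 0)) (s (Sum.inl 1)) (s (Sum.inl 2)) (s (Sum.inl 3))
    (s (Sum.inl 4)) (fun l => s (Sum.inr (Sum.inl l))) (fun l => s (Sum.inr (Sum.inr l))) (i : ℕ),
    ?_, fun i => ?_⟩
  · unfold pts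
    refine Finset.mem_image.2 ⟨(fun a => s (Sum.inl a),
      (fun l => s (Sum.inr (Sum.inl l)), fun l => s (Sum.inr (Sum.inr l)))), ?_, rfl⟩
    simp only [Finset.mem_product, Finset.mem_range, Fintype.mem_piFinset, Nat.lt_succ_iff]
    exact ⟨fun _ => hs _, fun _ => hs _, fun _ => hs _⟩
  · have h1 := map_gen (Nat.castRingHom K) m c (s (Sum.inl 0)) (s (Sum.inl 1)) (s (Sum.inl 2))
      (s (Sum.inl 3)) (s (Sum.inl 4)) (fun l => s (Sum.inr (Sum.inl l)))
      (fun l => s (Sum.inr (Sum.inr l))) (i : ℕ)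
    have h2 := map_gen (eval (fun j => (s j : K)) : MvPolynomial _ K →+* K) m c
      (X (Sum.inl 0)) (X (Sum.inl 1)) (X (Sum.inl 2)) (X (Sum.inl 3)) (X (Sum.inl 4))
      (fun l => X (Sum.inr (Sum.inl l))) (fun l => X (Sum.inr (Sum.inr l))) (i : ℕ)
    simp only [eval_X, eq_natCast] at h1 h2
    exact h1.trans h2.symm

theorem card_pts (n m c B : ℕ) : (pts n m c B).card ≤ (B + 1) ^ (5 + 2 * c) := by
  classical
  unfold pts
  refine Finset.card_image_le.trans ?_
  rw [Finset.card_product, Finset.card_product, Fintype.card_piFinset, Fintype.card_piFinset]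
  simp only [Finset.card_range, Finset.prod_const, Finset.card_univ, Fintype.card_fin]
  rw [← pow_add, ← pow_add]
  exact le_of_eq (by congr 1; ring)

end Pool.Agent.TWX
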