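import Pool.Agent.TWX.H1
import Pool.Agent.TWX.Dg
import Pool.Agent.CWR.CircH
import Pool.Agent.FOR.NDg

/-!
MODULE TWX-Fin.  From the Jacobian minors to the points.
-/

set_option autoImplicit false

namespace Pool.Agent.TWX

open MvPolynomial
open Pool.Agent.FOR (Ps lev)
open Pool.Agent.ORB (PhiP)
open Pool.Agent.CWR (Circ Etot)

universe u

theorem li_pow (K : Type u) [Field K] (n : ℕ) :
    LinearIndependent K (fun i : Fin n => (Polynomial.X ^ (i : ℕ) : Polynomial K)) := by
  have h := (Polynomial.basisMonomials K).linearIndependent.comp (fun i : Fin n => (i : ℕ))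
    Fin.val_injective
  have e : (⇑(Polynomial.basisMonomials K) ∘ fun i : Fin n => (i : ℕ)) =
      fun i : Fin n => (Polynomial.X ^ (i : ℕ) : Polynomial K) := by
    funext i
    rw [Function.comp_apply, Polynomial.coe_basisMonomials, Polynomial.X_pow_eq_monomial]
  rw [e] at h
  exact h

theorem gen_ne {K : Type u} [Field K] [CharZero K] {n κ k w r c D Δ : ℕ}
    (β : ℕ → Option (Fin n → ℕ)) {N : ℕ} (T : Fin N → MvPolynomial (Fin n) K)
    (hT : ∀ i, Circ κ w β (Leaf r c D) Δ (T i))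
    (htr : ∀ b : Finset (Fin N), AlgebraicIndepOn K T (b : Set (Fin N)) → b.card ≤ k)
    (g : MvPolynomial (Fin n) K) (hg : IsAlgebraic (Algebra.adjoin K (Set.range T)) g)
    (hg0 : g ≠ 0) :
    aeval (full K n (lev (max n (rkT κ k w r c D Δ))) (Etot κ k w Δ)) g ≠ 0 := by
  have h := CWR.circ_hit (κ := κ) (w := w) (β := β) (𝓛 := {f | Leaf r c D f}) (li_pow K n)
    (γ := crv2 K n (lev (max n (rkT κ k w r c D Δ)))) (k := k) (Δ := Δ)
    (leaf_H1 _ (CWR.sz κ k w Δ) (2 * Δ) r c D) T hT htr g hg hg0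
  rw [full_eq] at h
  exact h

theorem small_ne {K : Type u} [Field K] [CharZero K] {σ : Type} [Fintype σ] {B : ℕ}
    {f : MvPolynomial σ K} (h : f ≠ 0) (hB : f.totalDegree ≤ B) :
    ∃ s : σ → ℕ, (∀ j, s j ≤ B) ∧ eval (fun j => (s j : K)) f ≠ 0 := by
  classical
  by_contra hcon
  push Not at hcon
  apply h
  refine eq_zero_of_eval_zero_at_prod_finset _
    (fun _ : σ => (Finset.range (B + 1)).image (Nat.cast : ℕ → K)) ?_ ?_
  · intro i
    rw [Finset.card_image_of_injective _ Nat.cast_injective, Finset.card_range]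
    exact Nat.lt_succ_of_le ((degreeOf_le_totalDegree _ _).trans hB)
  · intro x hx
    have h1 : ∀ i, ∃ s : ℕ, s ≤ B ∧ (s : K) = x i := by
      intro i
      have h2 := hx i
      rw [Finset.mem_image] at h2
      obtain ⟨s, hs, hsx⟩ := h2
      exact ⟨s, Nat.lt_succ_iff.1 (Finset.mem_range.1 hs), hsx⟩
    choose s hs hsx using h1
    have h3 := hcon s hs
    have h4 : (fun j => (s j : K)) = x := funext hsx
    rw [h4] at h3
    exact h3

private theorem dg_tot {K : Type u} [Field K] {σ : Type} :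
    Pool.Agent.FOR.Dg (fun p : MvPolynomial σ K => p.totalDegree) where
  add := fun x y => totalDegree_add x y
  mul := fun x y => totalDegree_mul x y
  nat := fun n => by
    have h : ((n : ℕ) : MvPolynomial σ K) = C (n : K) := (map_natCast C n).symm
    show totalDegree ((n : ℕ) : MvPolynomial σ K) = 0
    rw [h]
    exact totalDegree_C _

theorem hit {K : Type u} [Field K] [CharZero K] {n κ k w r c D Δ D' : ℕ}
    (β : ℕ → Option (Fin n → ℕ)) {N : ℕ} (T : Fin N → MvPolynomial (Fin n) K)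
    (hT : ∀ i, Circ κ w β (Leaf r c D) Δ (T i))
    (htr : ∀ b : Finset (Fin N), AlgebraicIndepOn K T (b : Set (Fin N)) → b.card ≤ k)
    (g : MvPolynomial (Fin n) K) (hg : IsAlgebraic (Algebra.adjoin K (Set.range T)) g)
    (hg0 : g ≠ 0) (hD : g.totalDegree ≤ D') :
    ∃ x ∈ points n κ k w r c D Δ D', eval (fun i => ((x i : ℕ) : K)) g ≠ 0 := by
  have h1 := gen_ne β T hT htr g hg hg0
  have hK : ∀ a : K, (fun p : MvPolynomial (Fin 5 ⊕ (Fin (Etot κ k w Δ) ⊕ Fin (Etot κ k w Δ))) K =>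
      p.totalDegree) (algebraMap K (MvPolynomial _ K) a) = 0 := by
    intro a
    show totalDegree (algebraMap K (MvPolynomial _ K) a) = 0
    rw [algebraMap_eq]
    exact totalDegree_C _
  have h2 := Pool.Agent.FOR.aeval_le dg_tot hK g D' (deg n (rkT κ k w r c D Δ)) hD
    (full K n (lev (max n (rkT κ k w r c D Δ))) (Etot κ k w Δ))
    (fun v => deg_full K n (rkT κ k w r c D Δ) (Etot κ k w Δ) v)
  obtain ⟨s, hs, hne⟩ := small_ne h1 (h2.trans (le_of_eq (Nat.mul_comm _ _)))
  obtain ⟨x, hx, hxe⟩ := mem_pts K (n := n) (m := lev (max n (rkT κ k w r c D Δ)))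
    (c := Etot κ k w Δ) s hs
  refine ⟨x, hx, ?_⟩
  have h3 : (fun i => ((x i : ℕ) : K)) = fun i => eval (fun j => (s j : K))
      (full K n (lev (max n (rkT κ k w r c D Δ))) (Etot κ k w Δ) i) := funext hxe
  rw [h3]
  have h4 := comp_aeval_apply (R := K)
    (full K n (lev (max n (rkT κ k w r c D Δ))) (Etot κ k w Δ))
    (aeval (fun j => (s j : K)) :
      MvPolynomial (Fin 5 ⊕ (Fin (Etot κ k w Δ) ⊕ Fin (Etot κ k w Δ))) K →ₐ[K] K) g
  intro h5
  apply hne
  exact h4.trans h5

end Pool.Agent.TWX
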