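import Pool.Agent.FOR.Defs
import Pool.Agent.CWR.Core

/-!
Project TWX (MP_e2be99_lc): formulas of bounded depth (gates: `Pool.Agent.CWR.Circ`) over leaves
which are products of one polynomial of polynomial flattening rank (a read-once program in any
order) and of any number of polynomials of constant flattening rank.
`Cut`, `Cuts` are those of `Pool.Agent.AOI`, `Ps`, `lev` those of `Pool.Agent.FOR`.
Paper proof: /team-store/pit17_X.md.
-/

set_option autoImplicit false

namespace Pool.Agent.TWX

open MvPolynomial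
open Pool.Agent.AOI (Cut Cuts)
open Pool.Agent.FOR (Ps lev)
open Pool.Agent.CWR (sz Etot)

/-- The leaves: products `R * ∏ j, g j` of total degree at most `D`, where all flattenings of `R`
have rank at most `r` and all flattenings of all `g j` have rank at most `c`. -/
def Leaf {K : Type*} [Field K] {n : ℕ} (r c D : ℕ) (f : MvPolynomial (Fin n) K) : Prop :=
  f.totalDegree ≤ D ∧ ∃ (s : ℕ) (R : MvPolynomial (Fin n) K) (g : Fin s → MvPolynomial (Fin n) K),
    Cuts r R ∧ (∀ j, Cuts c (g j)) ∧ f = R * ∏ j, g j

/-- Bound for the flattening rank of the coefficients in the rows of the Jacobian matrix;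
`Z` is the number of coefficients, `p` the order of the derivatives. -/
def rE (Z p r c D : ℕ) : ℕ :=
  (D + 1) ^ p * ((r + 1) * Z ^ 2 * ((c + 1) * Z ^ (c + 6)) ^ p)

/-- Bound for the flattening rank of the lowest term of a minor of order at most `M` of derivatives
of order at most `p` of leaves, `Z = M D + 1`. -/
def rk (M p r c D : ℕ) : ℕ :=
  M.factorial * ((M * D + 1) * rE (M * D + 1) p r c D) ^ M

/-- `M = sz κ k w Δ`, `p = 2 Δ + 1`. -/
def rkT (κ k w r c D Δ : ℕ) : ℕ := rk (sz κ k w Δ) (2 * Δ + 1) r c D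

/-- The coordinates of the generator:
`Ps_i(t, e) + z * Ps_i(t', e') + ∑_l y_l * r_l ^ i`. -/
def gen {R : Type*} [CommSemiring R] (L c : ℕ) (t e z t' e' : R) (y u : Fin c → R) (i : ℕ) : R :=
  Ps L t e i + z * Ps L t' e' i + ∑ l, y l * u l ^ i

/-- Bound for the total degree of the coordinates of the generator. -/
def deg (n m : ℕ) : ℕ := 2 ^ 3840 * (n + m + 1) ^ 480 + n + 2

/-- All points of the generator with parameters in `{0, …, B}`. -/
def pts (n L c B : ℕ) : Finset (Fin n → ℕ) :=
  ((Fintype.piFinset fun _ : Fin 5 => Finset.range (B + 1)) ×ˢ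
    ((Fintype.piFinset fun _ : Fin c => Finset.range (B + 1)) ×ˢ
      (Fintype.piFinset fun _ : Fin c => Finset.range (B + 1)))).image
    fun a i => gen L c (a.1 0) (a.1 1) (a.1 2) (a.1 3) (a.1 4) a.2.1 a.2.2 (i : ℕ)

/-- The points. -/
def points (n κ k w r c D Δ D' : ℕ) : Finset (Fin n → ℕ) :=
  pts n (lev (max n (rkT κ k w r c D Δ))) (Etot κ k w Δ) (deg n (rkT κ k w r c D Δ) * D')

end Pool.Agent.TWX
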