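import Pool.Agent.TWA.CutA
import Pool.Agent.TWX.Defs

/-!
MODULE TWX-Bc (est. 0.8 h).  Power series in `z` whose coefficients have bounded flattening rank.
The algebra of `Cut` is in `Pool/Agent/TWA/CutA.lean` (`Cut.mono`, `zero`, `one`, `C_mul`, `add`,
`mul`, `sum`, `prod`, `det`; namespace `Pool.Agent.AOI`).

PLAN.  `mul`: `PowerSeries.coeff_mul`, `Cut.sum` over the antidiagonal (`l + 1 ≤ Z` elements) with
`Cut.mul`, then `Cut.mono`.  `prod`: `Finset.induction_on`, `(Z r)^(t+1) = Z (r (Z r)^t)`;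
`t = ∅`: `PowerSeries.coeff_one`.  `sum`: `map_sum`, `Cut.sum`.  `det`: `Matrix.det_apply'`, `sum`,
`prod`, `C_mul` (a sign is the image of a constant), as in `Cut.det`.
-/

set_option autoImplicit false

namespace Pool.Agent.TWX

open MvPolynomial
open Pool.Agent.AOI (Cut Cuts)

variable {L : Type*} [Field L] {n : ℕ} {S : Finset (Fin n)}

/-- The first `Z` coefficients have flattening rank at most `r` with respect to `S`. -/
def BC (r Z : ℕ) (S : Finset (Fin n)) (u : PowerSeries (MvPolynomial (Fin n) L)) : Prop :=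
  ∀ l < Z, Cut r S (PowerSeries.coeff l u)

theorem BC.mono {r r' Z : ℕ} {u : PowerSeries (MvPolynomial (Fin n) L)} (h : BC r Z S u)
    (hr : r ≤ r') : BC r' Z S u :=
  fun l hl => (h l hl).mono hr

theorem BC.one {Z : ℕ} : BC 1 Z S (1 : PowerSeries (MvPolynomial (Fin n) L)) := by
  intro l _
  rw [PowerSeries.coeff_one]
  by_cases h : l = 0
  · rw [if_pos h]
    exact Pool.Agent.AOI.Cut.one
  · rw [if_neg h]
    exact Pool.Agent.AOI.Cut.zero 1

theorem BC.C_mul {r Z : ℕ} {u : PowerSeries (MvPolynomial (Fin n) L)} (h : BC r Z S u) (a : L) :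
    BC r Z S (PowerSeries.C (C a) * u) := by
  intro l hl
  rw [PowerSeries.coeff_C_mul]
  exact (h l hl).C_mul a

theorem BC.mul {r r' Z : ℕ} {u v : PowerSeries (MvPolynomial (Fin n) L)} (hu : BC r Z S u)
    (hv : BC r' Z S v) : BC (Z * (r * r')) Z S (u * v) := by
  intro l hl
  rw [PowerSeries.coeff_mul]
  have h1 := Pool.Agent.AOI.Cut.sum (S := S) (Finset.HasAntidiagonal.antidiagonal l) (w := r * r')
    (fun p => PowerSeries.coeff p.1 u * PowerSeries.coeff p.2 v) (by
      intro p hp
      have h2 : p.1 + p.2 = l := Finset.HasAntidiagonal.mem_antidiagonal.1 hp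
      exact (hu p.1 (by omega)).mul (hv p.2 (by omega)))
  refine h1.mono (Nat.mul_le_mul_right _ ?_)
  rw [Finset.Nat.card_antidiagonal]
  omega

theorem BC.sum {ι : Type*} (t : Finset ι) {r Z : ℕ}
    (u : ι → PowerSeries (MvPolynomial (Fin n) L)) (h : ∀ j ∈ t, BC r Z S (u j)) :
    BC (t.card * r) Z S (∑ j ∈ t, u j) := by
  intro l hl
  rw [map_sum]
  exact Pool.Agent.AOI.Cut.sum t (fun j => PowerSeries.coeff l (u j)) fun j hj => h j hj l hl

theorem BC.prod {ι : Type*} (t : Finset ι) {r Z : ℕ}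
    (u : ι → PowerSeries (MvPolynomial (Fin n) L)) (h : ∀ j ∈ t, BC r Z S (u j)) :
    BC ((Z * r) ^ t.card) Z S (∏ j ∈ t, u j) := by
  classical
  induction t using Finset.induction_on with
  | empty =>
    rw [Finset.prod_empty, Finset.card_empty, pow_zero]
    exact BC.one
  | insert j t hj ih =>
    rw [Finset.prod_insert hj, Finset.card_insert_of_notMem hj]
    have h1 := (h j (Finset.mem_insert_self j t)).mul
      (ih fun i hi => h i (Finset.mem_insert_of_mem hi))
    have h2 : (Z * r) ^ (t.card + 1) = Z * (r * (Z * r) ^ t.card) := by ring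
    rw [h2]
    exact h1

theorem BC.det {M r Z : ℕ} (A : Matrix (Fin M) (Fin M) (PowerSeries (MvPolynomial (Fin n) L)))
    (h : ∀ i j, BC r Z S (A i j)) : BC (M.factorial * (Z * r) ^ M) Z S A.det := by
  classical
  rw [Matrix.det_apply']
  have h1 := BC.sum (S := S) (Z := Z) (Finset.univ : Finset (Equiv.Perm (Fin M))) (r := (Z * r) ^ M)
    (fun σ => ((Equiv.Perm.sign σ : ℤ) : PowerSeries (MvPolynomial (Fin n) L)) * ∏ i, A (σ i) i) (by
      intro σ _
      have h2 := BC.prod (S := S) (Z := Z) (Finset.univ : Finset (Fin M)) (fun i => A (σ i) i)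
        fun i _ => h (σ i) i
      rw [Finset.card_univ, Fintype.card_fin] at h2
      have h3 : ((Equiv.Perm.sign σ : ℤ) : PowerSeries (MvPolynomial (Fin n) L)) =
          PowerSeries.C (C ((Equiv.Perm.sign σ : ℤ) : L)) := by
        rw [map_intCast (C : L →+* MvPolynomial (Fin n) L), map_intCast]
      rw [h3]
      exact h2.C_mul _)
  rwa [Finset.card_univ, Fintype.card_perm, Fintype.card_fin] at h1

end Pool.Agent.TWX
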