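import Pool.Agent.TWX.Defs
import Pool.Agent.ORB.Gate

/-!
MODULE TWX-Bch.  Extension of the field of coefficients.
-/

set_option autoImplicit false

namespace Pool.Agent.TWX

open MvPolynomial
open Pool.Agent.AOI (Cut Cuts)
open Pool.Agent.ORB (pd)

variable {K L : Type*} [Field K] [Field L] (φ : K →+* L) {n : ℕ}

theorem cuts_map {r : ℕ} {f : MvPolynomial (Fin n) K} (h : Cuts r f) : Cuts r (map φ f) := by
  classical
  intro S
  obtain ⟨g, k, hg, hk, hf⟩ := h S
  refine ⟨fun i => map φ (g i), fun i => map φ (k i), fun i => ?_, fun i => ?_, ?_⟩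
  · exact (vars_map _ _).trans (hg i)
  · exact (vars_map _ _).trans (hk i)
  · rw [hf, map_sum]
    exact Finset.sum_congr rfl fun i _ => map_mul _ _ _

theorem pd_map (Λ : List (Fin n)) (f : MvPolynomial (Fin n) K) :
    pd Λ (map φ f) = map φ (pd Λ f) := by
  induction Λ with
  | nil => rfl
  | cons i Λ ih => rw [ORB.pd_cons, ORB.pd_cons, ih, pderiv_map]

theorem det_map {M : ℕ} (a : Fin M → MvPolynomial (Fin n) K) (J : Fin M → Fin n) :
    (Matrix.of fun i j => pderiv (J j) (map φ (a i))).det =
      map φ (Matrix.of fun i j => pderiv (J j) (a i)).det := by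
  rw [RingHom.map_det]
  congr 1
  ext1 i j
  simp only [Matrix.of_apply, RingHom.mapMatrix_apply, Matrix.map_apply, pderiv_map]

theorem deg_map_le (f : MvPolynomial (Fin n) K) : (map φ f).totalDegree ≤ f.totalDegree := by
  unfold totalDegree
  exact Finset.sup_mono (support_map_subset _ _)

end Pool.Agent.TWX
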