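import Pool.Agent.TWX.Defs
import Pool.Agent.FOR.Bit

/-!
MODULE TWX-Bit.  The points have polynomial bit length.
-/

set_option autoImplicit false

namespace Pool.Agent.TWX

open Pool.Agent.FOR (Ps lev)
open Pool.Agent.CWR (Etot)

private theorem bit_sum {c B n : ℕ} (y u : Fin c → ℕ) (hy : ∀ l, y l ≤ B) (hu : ∀ l, u l ≤ B)
    (i : ℕ) (hi : i < n) : ∑ l, y l * u l ^ i ≤ c * (B + 1) ^ n := by
  calc ∑ l, y l * u l ^ i ≤ ∑ _l : Fin c, (B + 1) ^ n := by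
        refine Finset.sum_le_sum fun l _ => ?_
        have h1 : u l ^ i ≤ (B + 1) ^ i := Nat.pow_le_pow_left ((hu l).trans (Nat.le_succ _)) _
        calc y l * u l ^ i ≤ (B + 1) * (B + 1) ^ i :=
              Nat.mul_le_mul ((hy l).trans (Nat.le_succ _)) h1
          _ = (B + 1) ^ (i + 1) := by rw [pow_succ, mul_comm]
          _ ≤ (B + 1) ^ n := Nat.pow_le_pow_right (Nat.succ_pos _) hi
    _ = c * (B + 1) ^ n := by simp

theorem bit_pts (n w c B : ℕ) (x : Fin n → ℕ) (hx : x ∈ pts n (lev (max n w)) c B) (i : Fin n) :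
    x i ≤ (2 * B + c + 2) ^ (2 ^ 4000 * (n + w + 1) ^ 500 + n + 2) := by
  unfold pts at hx
  obtain ⟨q, hq, rfl⟩ := Finset.mem_image.1 hx
  rw [Finset.mem_product, Finset.mem_product, Fintype.mem_piFinset, Fintype.mem_piFinset,
    Fintype.mem_piFinset] at hq
  obtain ⟨h1, h2, h3⟩ := hq
  have h1' : ∀ j, q.1 j ≤ B := fun j => Nat.lt_succ_iff.1 (Finset.mem_range.1 (h1 j))
  have h2' : ∀ j, q.2.1 j ≤ B := fun j => Nat.lt_succ_iff.1 (Finset.mem_range.1 (h2 j))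
  have h3' : ∀ j, q.2.2 j ≤ B := fun j => Nat.lt_succ_iff.1 (Finset.mem_range.1 (h3 j))
  show gen (lev (max n w)) c (q.1 0) (q.1 1) (q.1 2) (q.1 3) (q.1 4) q.2.1 q.2.2 (i : ℕ) ≤ _
  unfold gen
  have hsz := Pool.Agent.FOR.le_sz_lev (max n w)
  have hb : (i : ℕ) < Pool.Agent.FOR.sz (lev (max n w)) := by
    have := le_max_left n w
    have := i.2
    omega
  have h4 := Pool.Agent.FOR.vb_Ps (lev (max n w)) i hb (q.1 0) (q.1 1)
  have h5 := Pool.Agent.FOR.vb_Ps (lev (max n w)) i hb (q.1 3) (q.1 4)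
  have h6 := bit_sum q.2.1 q.2.2 h2' h3' i i.2
  set W := 2 * B + c + 2 with hW
  have hsz2 : Pool.Agent.FOR.sz (lev (max n w)) ^ 250 ≤ 2 ^ 4000 * (n + w + 1) ^ 500 := by
    refine (Nat.pow_le_pow_left (Pool.Agent.FOR.sz_lev_le (max n w)) 250).trans ?_
    rw [mul_pow, ← pow_mul, ← pow_mul]
    refine Nat.mul_le_mul_left _ (Nat.pow_le_pow_left ?_ _)
    have := max_le (Nat.le_add_right n w) (Nat.le_add_left w n)
    omega
  set s := Pool.Agent.FOR.sz (lev (max n w)) ^ 250 with hs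
  have hle : ∀ t e : ℕ, t ≤ B → e ≤ B → (t + e + 2) ^ s ≤ W ^ s := fun t e ht he =>
    Nat.pow_le_pow_left (by omega) _
  have h7 : Ps (lev (max n w)) (q.1 0) (q.1 1) (i : ℕ) ≤ W ^ s := by
    have := hle _ _ (h1' 0) (h1' 1)
    omega
  have h8 : Ps (lev (max n w)) (q.1 3) (q.1 4) (i : ℕ) ≤ W ^ s := by
    have := hle _ _ (h1' 3) (h1' 4)
    omega
  have h9 : (B + 1) ^ n ≤ W ^ n := Nat.pow_le_pow_left (by omega) _
  have hWp : 0 < W := by omega
  have e1 : W ^ s ≤ W ^ (s + n) := Nat.pow_le_pow_right hWp (Nat.le_add_right _ _)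
  have e2 : W ^ n ≤ W ^ (s + n) := Nat.pow_le_pow_right hWp (Nat.le_add_left _ _)
  calc Ps (lev (max n w)) (q.1 0) (q.1 1) (i : ℕ) +
        q.1 2 * Ps (lev (max n w)) (q.1 3) (q.1 4) (i : ℕ) +
        ∑ l, q.2.1 l * q.2.2 l ^ (i : ℕ)
      ≤ W ^ (s + n) + B * W ^ (s + n) + c * W ^ (s + n) := by
        refine Nat.add_le_add (Nat.add_le_add (h7.trans e1)
          (Nat.mul_le_mul (h1' 2) (h8.trans e1))) (h6.trans (Nat.mul_le_mul_left _ (h9.trans e2)))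
    _ = (1 + B + c) * W ^ (s + n) := by ring
    _ ≤ W * W ^ (s + n) := Nat.mul_le_mul_right _ (by omega)
    _ = W ^ (s + n + 1) := by rw [pow_succ W (s + n), mul_comm]
    _ ≤ W ^ (2 ^ 4000 * (n + w + 1) ^ 500 + n + 2) := Nat.pow_le_pow_right hWp (by omega)

end Pool.Agent.TWX
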