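import Pool.Agent.TWX.Low
import Pool.Agent.TWX.Bch
import Pool.Agent.FOR.Nt

/-!
MODULE TWX-Cv2 (est. 0.8 h).  Two copies of the curve.

PLAN.  `hit_base`: `eval (beta K n m) (map (algebraMap ..) g)` is the image of
`aeval (fun i => Ps m (X 0) (X 1) i) g` under the injective map
`algebraMap (MvPolynomial (Fin 2) K) (FractionRing ..)` (`IsFractionRing.injective`).
`hit_two`: let `ψ : MvPolynomial (Fin 5) K →ₐ[K] Polynomial (MvPolynomial (Fin 2) (FF K))` send
`X 0, X 1, X 2, X 3, X 4` to `C (C (algebraMap _ _ (X 0)))`, `C (C (algebraMap _ _ (X 1)))`,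
`Polynomial.X`, `C (X 0)`, `C (X 1)`.  By naturality `FOR.map_Ps` (`Pool/Agent/FOR/Nt.lean`)
`ψ (crv2 K n m i) = C (C (beta i)) + X * C (Ps m (X 0) (X 1) i)`, so `ψ (aeval (crv2 K n m) J)` is
`aeval (fun i => C (algebraMap .. (beta i)) + X * C (y i)) (map .. J)`, whose coefficient `m'` is
`aeval y (coeff m' (sb beta (map .. J))) ≠ 0` (`coeff_sub`).
-/

set_option autoImplicit false

namespace Pool.Agent.TWX

open MvPolynomial
open Pool.Agent.FOR (Ps)

universe u

/-- The field of rational functions in the two parameters of the curve. -/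
abbrev FF (K : Type u) [Field K] : Type u := FractionRing (MvPolynomial (Fin 2) K)

/-- The generic point of the curve. -/
noncomputable def beta (K : Type u) [Field K] (n m : ℕ) (i : Fin n) : FF K :=
  algebraMap (MvPolynomial (Fin 2) K) (FF K) (Ps m (X 0) (X 1) (i : ℕ))

/-- Two copies of the curve: `Ps(t, e) + z Ps(t', e')`. -/
noncomputable def crv2 (K : Type u) [Field K] (n m : ℕ) (i : Fin n) : MvPolynomial (Fin 5) K :=
  Ps m (X 0) (X 1) (i : ℕ) + X 2 * Ps m (X 3) (X 4) (i : ℕ)

theorem hit_base {K : Type u} [Field K] {n m : ℕ} {g : MvPolynomial (Fin n) K}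
    (h : aeval (fun i : Fin n => Ps m (X 0) (X 1) (i : ℕ)) g ≠ (0 : MvPolynomial (Fin 2) K)) :
    eval (beta K n m) (map (algebraMap K (FF K)) g) ≠ 0 := by
  have h1 : (eval (beta K n m)).comp (map (algebraMap K (FF K))) =
      (algebraMap (MvPolynomial (Fin 2) K) (FF K)).comp
        (aeval (fun i : Fin n => Ps m (X 0) (X 1) (i : ℕ)) :
          MvPolynomial (Fin n) K →ₐ[K] MvPolynomial (Fin 2) K).toRingHom := by
    refine MvPolynomial.ringHom_ext (fun r => ?_) fun i => ?_
    · simp only [RingHom.comp_apply, AlgHom.toRingHom_eq_coe, RingHom.coe_coe, map_C, eval_C,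
        aeval_C]
      exact IsScalarTower.algebraMap_apply K (MvPolynomial (Fin 2) K) (FF K) r
    · simp only [RingHom.comp_apply, AlgHom.toRingHom_eq_coe, RingHom.coe_coe, map_X, eval_X,
        aeval_X]
      rfl
  have h2 := RingHom.congr_fun h1 g
  rw [RingHom.comp_apply] at h2
  rw [h2, RingHom.comp_apply]
  intro h3
  exact h ((map_eq_zero_iff _ (IsFractionRing.injective (MvPolynomial (Fin 2) K) (FF K))).1 h3)

theorem hit_two {K : Type u} [Field K] {n m m' : ℕ} {J : MvPolynomial (Fin n) K}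
    (h : aeval (fun i : Fin n => Ps m (X 0) (X 1) (i : ℕ))
      (PowerSeries.coeff m' (sb (beta K n m) (map (algebraMap K (FF K)) J))) ≠
        (0 : MvPolynomial (Fin 2) (FF K))) :
    aeval (crv2 K n m) J ≠ 0 := by
  rw [← coeff_sub (A := MvPolynomial (Fin 2) (FF K))] at h
  intro h0
  apply h
  obtain ⟨w, hw⟩ : ∃ w : Fin 5 → Polynomial (MvPolynomial (Fin 2) (FF K)),
      w = ![Polynomial.C (C (algebraMap (MvPolynomial (Fin 2) K) (FF K) (X 0))),
        Polynomial.C (C (algebraMap (MvPolynomial (Fin 2) K) (FF K) (X 1))),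
        Polynomial.X, Polynomial.C (X 0), Polynomial.C (X 1)] := ⟨_, rfl⟩
  obtain ⟨ψ, hψ⟩ : ∃ ψ : MvPolynomial (Fin 5) K →+* Polynomial (MvPolynomial (Fin 2) (FF K)),
      ψ = eval₂Hom (algebraMap K (Polynomial (MvPolynomial (Fin 2) (FF K)))) w := ⟨_, rfl⟩
  have hX : ∀ j, ψ (X j) = w j := fun j => by rw [hψ, eval₂Hom_X']
  have hc : ∀ i : Fin n, ψ (crv2 K n m i) =
      Polynomial.C (algebraMap (FF K) (MvPolynomial (Fin 2) (FF K)) (beta K n m i)) +
        Polynomial.X * Polynomial.C (Ps m (X 0) (X 1) (i : ℕ)) := by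
    intro i
    have e1 := FOR.map_Ps ((Polynomial.C.comp
      (C : FF K →+* MvPolynomial (Fin 2) (FF K))).comp
        (algebraMap (MvPolynomial (Fin 2) K) (FF K))) m (X 0) (X 1) (i : ℕ)
    have e2 := FOR.map_Ps (Polynomial.C : MvPolynomial (Fin 2) (FF K) →+* _) m (X 0) (X 1) (i : ℕ)
    unfold crv2
    rw [map_add, map_mul, FOR.map_Ps ψ, FOR.map_Ps ψ, hX, hX, hX, hX, hX, hw]
    rw [RingHom.comp_apply, RingHom.comp_apply, RingHom.comp_apply, RingHom.comp_apply,
      RingHom.comp_apply, RingHom.comp_apply] at e1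
    rw [e2, algebraMap_eq]
    unfold beta
    rw [e1]
    rfl
  have h1 : ψ.comp (aeval (crv2 K n m) : MvPolynomial (Fin n) K →ₐ[K] _).toRingHom =
      (aeval (fun i : Fin n => Polynomial.C (algebraMap (FF K) (MvPolynomial (Fin 2) (FF K))
        (beta K n m i)) + Polynomial.X * Polynomial.C (Ps m (X 0) (X 1) (i : ℕ))) :
          MvPolynomial (Fin n) (FF K) →ₐ[FF K] _).toRingHom.comp
        (map (algebraMap K (FF K))) := by
    refine MvPolynomial.ringHom_ext (fun r => ?_) fun i => ?_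
    · simp only [RingHom.comp_apply, AlgHom.toRingHom_eq_coe, RingHom.coe_coe, map_C, aeval_C]
      rw [algebraMap_eq, hψ, coe_eval₂Hom, eval₂_C]
      exact IsScalarTower.algebraMap_apply K (FF K) (Polynomial (MvPolynomial (Fin 2) (FF K))) r
    · simp only [RingHom.comp_apply, AlgHom.toRingHom_eq_coe, RingHom.coe_coe, map_X, aeval_X]
      exact hc i
  have h2 := RingHom.congr_fun h1 J
  rw [RingHom.comp_apply, RingHom.comp_apply] at h2
  have h3 : (aeval (crv2 K n m) : MvPolynomial (Fin n) K →ₐ[K] _).toRingHom J = 0 := h0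
  rw [h3, map_zero] at h2
  have h4 := congrArg (fun q => Polynomial.coeff q m') h2.symm
  rw [Polynomial.coeff_zero] at h4
  exact h4

end Pool.Agent.TWX
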