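import Pool.Agent.TWX.Defs
import Pool.Agent.TWA.CutB
import Pool.Agent.ORB.Gate

/-!
MODULE TWX-Der (est. 1 h).  Derivatives of `R * ∏ j, g j`.

PLAN.  `Tm.pderiv`: `pderiv v (R' * ∏ g') = pderiv v R' * ∏ g' + ∑ j, R' * (pderiv v (g' j) *
∏ over the others)` (`Derivation.leibniz`, `Derivation.leibniz_prod` or
`Finset.prod`-induction; `Finset.prod_update_of_mem`/`Function.update`): the summand `j` is
`R' * ∏ i, Function.update g' j (pderiv v (g' j)) i`, with `insert j I` instead of `I`; `Cut.pderiv`.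
The `s + 1` summands are indexed by `Fin (s + 1)` (`Fin.cons`, `Fin.sum_univ_succ`).
`pd_terms`: induction on the list; `(s + 1) ^ (length + 1)` via `finProdFinEquiv`
(`Fin a × Fin b ≃ Fin (a * b)`), `map_sum`.
-/

set_option autoImplicit false

namespace Pool.Agent.TWX

open MvPolynomial
open Pool.Agent.AOI (Cut Cuts)
open Pool.Agent.ORB (pd)

variable {K : Type*} [Field K] {n : ℕ}

/-- Products as in `Leaf` in which at most `p` of the factors `g j` are replaced. -/
def Tm (r c : ℕ) {s : ℕ} (g : Fin s → MvPolynomial (Fin n) K) (p : ℕ)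
    (f : MvPolynomial (Fin n) K) : Prop :=
  ∃ (R : MvPolynomial (Fin n) K) (g' : Fin s → MvPolynomial (Fin n) K) (I : Finset (Fin s)),
    Cuts r R ∧ (∀ j, Cuts c (g' j)) ∧ I.card ≤ p ∧ (∀ j, j ∉ I → g' j = g j) ∧
      f = R * ∏ j, g' j

private theorem der_prod {ι : Type*} [DecidableEq ι] (v : Fin n) (T : Finset ι)
    (g : ι → MvPolynomial (Fin n) K) :
    MvPolynomial.pderiv v (∏ j ∈ T, g j) =
      ∑ j ∈ T, ∏ i ∈ T, Function.update g j (MvPolynomial.pderiv v (g j)) i := by
  induction T using Finset.induction_on with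
  | empty =>
    rw [Finset.prod_empty, Finset.sum_empty, pderiv_one]
  | insert a T ha ih =>
    rw [Finset.prod_insert ha, pderiv_mul, ih, Finset.sum_insert ha, Finset.prod_insert ha,
      Function.update_self, Finset.mul_sum]
    congr 1
    · congr 1
      refine Finset.prod_congr rfl fun i hi => ?_
      rw [Function.update_of_ne]
      rintro rfl
      exact ha hi
    · refine Finset.sum_congr rfl fun j hj => ?_
      rw [Finset.prod_insert ha, Function.update_of_ne]
      rintro rfl
      exact ha hj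

theorem Tm.pderiv {r c s p : ℕ} {g : Fin s → MvPolynomial (Fin n) K}
    {f : MvPolynomial (Fin n) K} (h : Tm r c g p f) (v : Fin n) :
    ∃ F : Fin (s + 1) → MvPolynomial (Fin n) K, (∀ i, Tm r c g (p + 1) (F i)) ∧
      MvPolynomial.pderiv v f = ∑ i, F i := by
  classical
  obtain ⟨R, g', I, hR, hg', hI, hI', rfl⟩ := h
  refine ⟨Fin.cons (MvPolynomial.pderiv v R * ∏ j, g' j)
    (fun j => R * ∏ i, Function.update g' j (MvPolynomial.pderiv v (g' j)) i), ?_, ?_⟩
  · intro i
    refine Fin.cases ?_ (fun j => ?_) i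
    · rw [Fin.cons_zero]
      exact ⟨MvPolynomial.pderiv v R, g', I, fun S => Pool.Agent.AOI.Cut.pderiv (hR S) v, hg', by omega, hI', rfl⟩
    · rw [Fin.cons_succ]
      refine ⟨R, Function.update g' j (MvPolynomial.pderiv v (g' j)), insert j I, hR, fun i => ?_, ?_, fun i hi => ?_,
        rfl⟩
      · by_cases hij : i = j
        · subst hij
          rw [Function.update_self]
          exact fun S => Pool.Agent.AOI.Cut.pderiv (hg' i S) v
        · rw [Function.update_of_ne hij]
          exact hg' i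
      · exact le_trans (Finset.card_insert_le j I) (by omega)
      · rw [Finset.mem_insert, not_or] at hi
        rw [Function.update_of_ne hi.1]
        exact hI' i hi.2
  · rw [Fin.sum_univ_succ]
    simp only [Fin.cons_zero, Fin.cons_succ]
    rw [pderiv_mul, der_prod, Finset.mul_sum]

theorem pd_terms {r c s : ℕ} {R : MvPolynomial (Fin n) K} {g : Fin s → MvPolynomial (Fin n) K}
    (hR : Cuts r R) (hg : ∀ j, Cuts c (g j)) (Λ : List (Fin n)) :
    ∃ F : Fin ((s + 1) ^ Λ.length) → MvPolynomial (Fin n) K,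
      (∀ i, Tm r c g Λ.length (F i)) ∧ pd Λ (R * ∏ j, g j) = ∑ i, F i := by
  induction Λ with
  | nil =>
    refine ⟨fun _ => R * ∏ j, g j, fun _ => ⟨R, g, ∅, hR, hg, by simp, fun _ _ => rfl, rfl⟩, ?_⟩
    rw [Finset.sum_const, Finset.card_univ, Fintype.card_fin, List.length_nil, pow_zero, one_smul,
      Pool.Agent.ORB.pd_nil]
  | cons v Λ ih =>
    obtain ⟨F, hF, e⟩ := ih
    choose F' hF' e' using fun i => (hF i).pderiv v
    rw [List.length_cons, pow_succ]
    refine ⟨fun k => F' (finProdFinEquiv.symm k).1 (finProdFinEquiv.symm k).2, fun k => hF' _ _, ?_⟩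
    rw [Pool.Agent.ORB.pd_cons, e, map_sum,
      finProdFinEquiv.symm.sum_comp (fun q : Fin ((s + 1) ^ Λ.length) × Fin (s + 1) => F' q.1 q.2),
      Fintype.sum_prod_type]
    exact Finset.sum_congr rfl fun i _ => e' i

end Pool.Agent.TWX
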