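import Mathlib

/-!
MODULE TWX-Exs.  The number of exponents.
-/

set_option autoImplicit false

namespace Pool.Agent.TWX

theorem card_antidiag (m l : ℕ) :
    (Finset.piAntidiag (Finset.univ : Finset (Fin m)) l).card ≤ (l + 1) ^ m := by
  have h : Finset.piAntidiag (Finset.univ : Finset (Fin m)) l ⊆
      Fintype.piFinset fun _ => Finset.range (l + 1) := by
    intro f hf
    rw [Finset.mem_piAntidiag] at hf
    rw [Fintype.mem_piFinset]
    intro i
    have h1 : f i ≤ ∑ j, f j := Finset.single_le_sum (fun j _ => Nat.zero_le (f j)) (Finset.mem_univ i)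
    rw [hf.1] at h1
    exact Finset.mem_range.2 (Nat.lt_succ_of_le h1)
  refine (Finset.card_le_card h).trans ?_
  rw [Fintype.card_piFinset]
  simp

end Pool.Agent.TWX
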