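import Pool.Agent.TWX.Defs
import Pool.Agent.TWA.CutA

/-!
MODULE TWX-Nrm (est. 0.8 h).  Leaves have at most `D` factors which are not constants.

PLAN.  `f = R * ∏ j, g j ≠ 0`, so all `g j ≠ 0`, `R ≠ 0`.  Let `t` be the set of the `j` with
`(g j).totalDegree ≠ 0`.  For `j ∉ t`, `g j = C (a j)` (`totalDegree_eq_zero_iff_eq_C`); put
`R' = C (∏ j ∉ t, a j) * R` (`Cut.C_mul`) and index `t` by `Fin t.card` (`Finset.equivFin`,
`Finset.prod_coe_sort`, `Equiv.prod_comp`).  `t.card ≤ ∑ j ∈ t, totalDegree (g j) =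
totalDegree (∏ j ∈ t, g j) ≤ totalDegree f ≤ D` (`MvPolynomial.totalDegree_mul_of_isDomain`,
induction for products).
-/

set_option autoImplicit false

namespace Pool.Agent.TWX

open MvPolynomial
open Pool.Agent.AOI (Cut Cuts)

variable {K : Type*} [Field K] {n : ℕ}

private theorem nrm_deg {ι : Type*} (t : Finset ι) (g : ι → MvPolynomial (Fin n) K)
    (hg : ∀ j ∈ t, g j ≠ 0) : (∏ j ∈ t, g j).totalDegree = ∑ j ∈ t, (g j).totalDegree := by
  classical
  induction t using Finset.induction_on with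
  | empty => rw [Finset.prod_empty, Finset.sum_empty, totalDegree_one]
  | insert a t ha ih =>
    rw [Finset.prod_insert ha, Finset.sum_insert ha, totalDegree_mul_of_isDomain
      (hg a (Finset.mem_insert_self a t))
      (Finset.prod_ne_zero_iff.2 fun j hj => hg j (Finset.mem_insert_of_mem hj)),
      ih fun j hj => hg j (Finset.mem_insert_of_mem hj)]

theorem Leaf.normal {r c D : ℕ} {f : MvPolynomial (Fin n) K} (hf : Leaf r c D f) (h0 : f ≠ 0) :
    ∃ s ≤ D, ∃ (R : MvPolynomial (Fin n) K) (g : Fin s → MvPolynomial (Fin n) K),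
      Cuts r R ∧ (∀ j, Cuts c (g j)) ∧ (∀ j, g j ≠ 0) ∧ f = R * ∏ j, g j := by
  classical
  obtain ⟨hD, s, R, g, hR, hg, rfl⟩ := hf
  have hR0 : R ≠ 0 := left_ne_zero_of_mul h0
  have hg0 : ∀ j, g j ≠ 0 := fun j =>
    Finset.prod_ne_zero_iff.1 (right_ne_zero_of_mul h0) j (Finset.mem_univ j)
  obtain ⟨t, ht⟩ : ∃ t : Finset (Fin s), t = Finset.univ.filter fun j => (g j).totalDegree ≠ 0 :=
    ⟨_, rfl⟩
  have hmem : ∀ j, j ∈ t ↔ (g j).totalDegree ≠ 0 := by
    intro j
    rw [ht, Finset.mem_filter]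
    exact ⟨fun h => h.2, fun h => ⟨Finset.mem_univ j, h⟩⟩
  have hC : ∀ j, ∃ a : K, j ∉ t → g j = C a := by
    intro j
    by_cases hj : j ∈ t
    · exact ⟨0, fun h => absurd hj h⟩
    · rw [hmem, not_not] at hj
      exact ⟨_, fun _ => totalDegree_eq_zero_iff_eq_C.1 hj⟩
  choose a ha using hC
  have hsplit : R * ∏ j, g j = (C (∏ j ∈ tᶜ, a j) * R) * ∏ j ∈ t, g j := by
    rw [← Finset.prod_mul_prod_compl t g, map_prod,
      Finset.prod_congr rfl (fun j hj => ha j (Finset.mem_compl.1 hj))]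
    ring
  have hcard : t.card ≤ D := by
    refine le_trans ?_ hD
    rw [hsplit, totalDegree_mul_of_isDomain]
    · rw [nrm_deg t g fun j _ => hg0 j]
      refine le_trans ?_ (Nat.le_add_left _ _)
      rw [Finset.card_eq_sum_ones]
      refine Finset.sum_le_sum fun j hj => ?_
      have := (hmem j).1 hj
      omega
    · intro h
      rw [hsplit, h, zero_mul] at h0
      exact h0 rfl
    · exact Finset.prod_ne_zero_iff.2 fun j _ => hg0 j
  refine ⟨t.card, hcard, C (∏ j ∈ tᶜ, a j) * R, fun k => g (t.equivFin.symm k), ?_, ?_, ?_, ?_⟩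
  · exact fun S => (hR S).C_mul _
  · exact fun k => hg _
  · exact fun k => hg0 _
  · rw [hsplit, t.equivFin.symm.prod_comp (fun j : t => g j), Finset.prod_coe_sort]

end Pool.Agent.TWX
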