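import Pool.Agent.TWX.Jac
import Pool.Agent.TWX.Nrm
import Pool.Agent.TWX.Cv2
import Pool.Agent.FOR.Main
import Pool.Agent.ORB.H1

/-!
MODULE TWX-H1.  The Jacobian minors of derivatives of leaves are hit by two copies of the curve.
-/

set_option autoImplicit false

namespace Pool.Agent.TWX

open MvPolynomial
open Pool.Agent.AOI (Cut Cuts)
open Pool.Agent.FOR (Ps lev)
open Pool.Agent.ORB (pd Dc H1 PhiP_of_aeval)

universe u

instance {K : Type u} [Field K] [CharZero K] : CharZero (FF K) :=
  charZero_of_injective_algebraMap (algebraMap K (FF K)).injective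

theorem leaf_H1 {K : Type u} [Field K] [CharZero K] {n : ℕ} (gp : Fin n → Polynomial K)
    (M p r c D : ℕ) :
    H1 gp (crv2 K n (lev (max n (rk M (p + 1) r c D)))) 0
      (Dc {f : MvPolynomial (Fin n) K | Leaf r c D f} p) M := by
  intro M' hM a ha J hdet
  apply PhiP_of_aeval
  rcases Nat.eq_zero_or_pos M' with rfl | hpos
  · rw [Matrix.det_isEmpty, map_one]
    exact one_ne_zero
  choose Λ hΛ f hf haf using ha
  have hf0 : ∀ i, f i ≠ 0 := by
    intro i h0
    apply hdet
    refine Matrix.det_eq_zero_of_row_eq_zero i fun j => ?_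
    rw [Matrix.of_apply, haf i, h0, Pool.Agent.ORB.pd_zero, map_zero]
  set m := lev (max n (rk M (p + 1) r c D)) with hm
  have hc : c ≤ rk M (p + 1) r c D := c_le_rk (lt_of_lt_of_le hpos hM) (Nat.succ_pos p) r c D
  have hLN : ∀ i, LeafN (beta K n m) r c D (map (algebraMap K (FF K)) (f i)) := by
    intro i
    obtain ⟨s, hs, R, g, hR, hg, hg0, hfe⟩ := (hf i).normal (hf0 i)
    refine ⟨(deg_map_le _ _).trans (hf i).1, s, hs, map (algebraMap K (FF K)) R,
      fun j => map (algebraMap K (FF K)) (g j),
      cuts_map _ hR, fun j => cuts_map _ (hg j), fun j => hit_base ?_, ?_⟩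
    · exact Pool.Agent.FOR.gen _ (hg0 j) fun S => (hg j S).mono hc
    · rw [hfe, map_mul, map_prod]
  have hdetE : (Matrix.of fun i j => pderiv (J j) (pd (Λ i) (map (algebraMap K (FF K)) (f i)))).det =
      map (algebraMap K (FF K)) (Matrix.of fun i j => pderiv (J j) (a i)).det := by
    rw [← det_map]
    congr 1
    ext i j
    simp only [Matrix.of_apply]
    rw [haf i, pd_map]
  obtain ⟨m', h1, h2⟩ := jac_low (beta K n m) hM (fun i => map (algebraMap K (FF K)) (f i)) hLN Λ
    hΛ J (by
      rw [hdetE]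
      intro h0
      apply hdet
      exact map_injective (algebraMap K (FF K)) (algebraMap K (FF K)).injective
        (by rw [h0, map_zero]))
  rw [hdetE] at h1 h2
  exact hit_two (Pool.Agent.FOR.gen _ h1 h2)

end Pool.Agent.TWX
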