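import Pool.Agent.TWX.Sb
import Pool.Agent.TWX.Exs

/-!
MODULE TWX-Inv (est. 1.3 h).  The inverse of `g (b + z x)` for `g` of small flattening rank.

PLAN.  `bc_pow`: `u ^ l = ∑ α ∈ Finset.piAntidiag univ l, multinomial * ∏ q, (U q * V q) ^ α q`
(`Finset.sum_pow_eq_sum_piAntidiag`), at most `(l + 1) ^ m ≤ Z ^ m` terms (`card_antidiag`), every
term is `C a * (∏ U^α) * (∏ V^α)` with a pure first and a pure second factor, `bc_pur`, `BC.C_mul`,
`BC.sum`.
`exists_inv`: `g₀ = eval b g ≠ 0`.  `v` = the inverse of the unit `sb b g`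
(`PowerSeries.isUnit_iff_constantCoeff`, constant coefficient `C g₀`, a unit).  Put
`u = 1 - C (C g₀⁻¹) * sb b g`, constant coefficient `0`; `C (C g₀⁻¹) * sb b g = 1 - u` and
`(1 - u) * ∑ l < Z, u ^ l = 1 - u ^ Z` (`mul_neg_geom_sum`/`geom_sum_mul`), hence
`v = C (C g₀⁻¹) * ∑ l < Z, u ^ l + v * u ^ Z` and the last term has no coefficients below `Z`
(`PowerSeries.X_dvd_iff`: `X ∣ u`, so `X ^ Z ∣ u ^ Z`).  `u` is a sum of `c + 1` products of pure
series: `u = 1 * 1 + ∑ q : Fin c, (C (C (- g₀⁻¹)) * sb b (a q)) * sb b (b' q)`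
(`Fin (c + 1)`, `Fin.sum_univ_succ`, `Fin.cons`).  Total: `Z` powers, each with `bc_pow` for
`m = c + 1`: `Z * (Z ^ (c + 1) * Z) = Z ^ (c + 3)`.
-/

set_option autoImplicit false

namespace Pool.Agent.TWX

open MvPolynomial
open Pool.Agent.AOI (Cut Cuts)

variable {L : Type*} [Field L] {n : ℕ}

theorem bc_pow {S : Finset (Fin n)} {m : ℕ} (U V : Fin m → PowerSeries (MvPolynomial (Fin n) L))
    (hU : ∀ q, Pur S (U q)) (hV : ∀ q, Pur Sᶜ (V q)) {l Z : ℕ} (hl : l < Z) :
    BC (Z ^ m * Z) Z S ((∑ q, U q * V q) ^ l) := by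
  classical
  rw [Finset.sum_pow_eq_sum_piAntidiag]
  have h1 := BC.sum (S := S) (Finset.piAntidiag (Finset.univ : Finset (Fin m)) l) (r := Z) (Z := Z)
    (fun k => (Nat.multinomial (Finset.univ : Finset (Fin m)) k :
      PowerSeries (MvPolynomial (Fin n) L)) * ∏ i, (U i * V i) ^ k i) (by
      intro k _
      have h2 : BC Z Z S ((∏ i, U i ^ k i) * ∏ i, V i ^ k i) :=
        bc_pur (Pur.prod _ _ fun i _ => (hU i).pow _) (Pur.prod _ _ fun i _ => (hV i).pow _) Z
      have h3 := h2.C_mul ((Nat.multinomial (Finset.univ : Finset (Fin m)) k : ℕ) : L)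
      have h4 : (Nat.multinomial (Finset.univ : Finset (Fin m)) k :
          PowerSeries (MvPolynomial (Fin n) L)) * ∏ i, (U i * V i) ^ k i =
          PowerSeries.C (C ((Nat.multinomial (Finset.univ : Finset (Fin m)) k : ℕ) : L)) *
            ((∏ i, U i ^ k i) * ∏ i, V i ^ k i) := by
        rw [map_natCast, map_natCast, ← Finset.prod_mul_distrib]
        simp only [mul_pow]
      rw [h4]
      exact h3)
  refine h1.mono ?_
  refine Nat.mul_le_mul_right _ ?_
  exact (card_antidiag m l).trans (Nat.pow_le_pow_left hl m)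

theorem exists_inv (b : Fin n → L) {g : MvPolynomial (Fin n) L} (hg : eval b g ≠ 0) :
    ∃ v : PowerSeries (MvPolynomial (Fin n) L), sb b g * v = 1 ∧
      ∀ (c Z : ℕ) (S : Finset (Fin n)), Cut c S g → BC (Z ^ (c + 3)) Z S v := by
  have hu : IsUnit (sb b g) := by
    rw [PowerSeries.isUnit_iff_constantCoeff, constantCoeff_sb]
    exact (isUnit_iff_ne_zero.mpr hg).map C
  obtain ⟨v, hv⟩ := hu.exists_right_inv
  refine ⟨v, hv, ?_⟩
  intro c Z S hc
  obtain ⟨a, b', ha, hb, hgs⟩ := hc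
  obtain ⟨u, hu0⟩ : ∃ u : PowerSeries (MvPolynomial (Fin n) L),
      u = 1 - PowerSeries.C (C (eval b g)⁻¹) * sb b g := ⟨_, rfl⟩
  have hX : PowerSeries.X ∣ u := by
    rw [PowerSeries.X_dvd_iff, hu0, map_sub, map_mul, constantCoeff_sb, map_one,
      PowerSeries.constantCoeff_C, ← C_mul, inv_mul_cancel₀ hg, C_1, sub_self]
  have hsum : u = ∑ q : Fin (c + 1),
      (Fin.cons 1 (fun q : Fin c => PowerSeries.C (C (-(eval b g)⁻¹)) * sb b (a q)) :
        Fin (c + 1) → PowerSeries (MvPolynomial (Fin n) L)) q *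
      (Fin.cons 1 (fun q : Fin c => sb b (b' q)) :
        Fin (c + 1) → PowerSeries (MvPolynomial (Fin n) L)) q := by
    rw [Fin.sum_univ_succ]
    simp only [Fin.cons_zero, Fin.cons_succ, mul_one]
    have h5 : sb b g = ∑ q : Fin c, sb b (a q) * sb b (b' q) := by
      conv_lhs => rw [hgs]
      rw [map_sum]
      simp only [map_mul]
    rw [hu0, h5, C_neg, map_neg, sub_eq_add_neg, ← neg_mul, Finset.mul_sum]
    simp only [mul_assoc]
  have hG : BC (Z ^ (c + 3)) Z S (∑ l ∈ Finset.range Z, u ^ l) := by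
    have h6 := BC.sum (S := S) (Finset.range Z) (r := Z ^ (c + 1) * Z) (Z := Z)
      (fun l => u ^ l) (by
        intro l hl
        show BC (Z ^ (c + 1) * Z) Z S (u ^ l)
        rw [hsum]
        refine bc_pow _ _ ?_ ?_ (Finset.mem_range.1 hl)
        · intro q
          refine Fin.cases ?_ (fun q => ?_) q
          · rw [Fin.cons_zero]
            exact Pur.one S
          · rw [Fin.cons_succ]
            exact (pur_sb b (ha q)).C_mul _
        · intro q
          refine Fin.cases ?_ (fun q => ?_) q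
          · rw [Fin.cons_zero]
            exact Pur.one Sᶜ
          · rw [Fin.cons_succ]
            exact pur_sb b (hb q))
    rw [Finset.card_range] at h6
    have h7 : Z * (Z ^ (c + 1) * Z) = Z ^ (c + 3) := by ring
    rwa [h7] at h6
  have hgeo : (1 - u) * ∑ l ∈ Finset.range Z, u ^ l = 1 - u ^ Z := mul_neg_geom_sum u Z
  have hveq : v = PowerSeries.C (C (eval b g)⁻¹) * ∑ l ∈ Finset.range Z, u ^ l + v * u ^ Z := by
    have h8 : (1 : PowerSeries (MvPolynomial (Fin n) L)) - u =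
        PowerSeries.C (C (eval b g)⁻¹) * sb b g := by
      rw [hu0]; ring
    rw [h8] at hgeo
    have h9 : v * (PowerSeries.C (C (eval b g)⁻¹) * sb b g * ∑ l ∈ Finset.range Z, u ^ l) =
        v * (1 - u ^ Z) := by rw [hgeo]
    have h10 : v * (PowerSeries.C (C (eval b g)⁻¹) * sb b g * ∑ l ∈ Finset.range Z, u ^ l) =
        (sb b g * v) * (PowerSeries.C (C (eval b g)⁻¹) * ∑ l ∈ Finset.range Z, u ^ l) := by ring
    rw [h10, hv, one_mul] at h9
    rw [h9]
    ring
  intro l hl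
  have h11 : PowerSeries.coeff l v =
      PowerSeries.coeff l (PowerSeries.C (C (eval b g)⁻¹) * ∑ l ∈ Finset.range Z, u ^ l) := by
    conv_lhs => rw [hveq]
    rw [map_add]
    have h12 : PowerSeries.X ^ Z ∣ v * u ^ Z := Dvd.dvd.mul_left (pow_dvd_pow_of_dvd hX Z) v
    rw [PowerSeries.X_pow_dvd_iff.1 h12 l hl, add_zero]
  rw [h11]
  exact hG.C_mul _ l hl

end Pool.Agent.TWX
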