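import Pool.Agent.TWX.Sb
import Pool.Agent.FOR.NDg

/-!
MODULE TWX-Low (est. 1 h).  The lowest term in `z`.

PLAN.  `coeff_sub`: both sides are the coefficients of the images of `f` under the ring
homomorphisms `f ↦ ((aeval (fun i => C (b i) + X * C (y i)) f : A[X]) : A⟦X⟧)` and
`f ↦ PowerSeries.map (aeval y) (sb b f)`; they agree on constants and variables
(`MvPolynomial.ringHom_ext`), `Polynomial.coeff_coe`, `PowerSeries.coeff_map`.
`exists_low`: by `coeff_sub` for `A = MvPolynomial (Fin n) L`, `y = X`, the series `sb b J` is the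
polynomial `Q = aeval (fun i => C (C (b i)) + X * C (X i)) J`; `Q.natDegree ≤ J.totalDegree`
(`MvPolynomial.aeval_def`, `eval₂_eq'`, `natDegree_sum_le_of_forall_le`, `natDegree_mul_le`,
`natDegree_prod_le`, or `FOR.aeval_le` with `FOR.dg_natDegree` of `Pool/Agent/FOR/NDg.lean`); its value
at `1` is `aeval (fun i => C (b i) + X i) J`, which is not `0` (compose with
`aeval (fun i => X i - C (b i))`, an inverse).  So some coefficient with `m ≤ natDegree` is not `0`;
take the smallest such `m` (`Nat.find`).
`low_mul`: strong induction on `l < m`: `coeff l F = 0` (`PowerSeries.coeff_mul`, in the sum over the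
antidiagonal only the term `(0, l)` remains, `coeff 0 P = constantCoeff P = C p`, `C p ≠ 0`, domain).
-/

set_option autoImplicit false

namespace Pool.Agent.TWX

open MvPolynomial
open Pool.Agent.AOI (Cut Cuts)

variable {L : Type*} [Field L] {n : ℕ}

/-- Substituting `x = y` in the coefficients of `f (b + z x)`. -/
theorem coeff_sub {A : Type*} [CommRing A] [Algebra L A] (b : Fin n → L) (y : Fin n → A)
    (f : MvPolynomial (Fin n) L) (m : ℕ) :
    Polynomial.coeff (aeval (fun i => Polynomial.C (algebraMap L A (b i)) +
      Polynomial.X * Polynomial.C (y i)) f : Polynomial A) m =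
      aeval y (PowerSeries.coeff m (sb b f)) := by
  have h : (Polynomial.coeToPowerSeries.ringHom : Polynomial A →+* PowerSeries A).comp
      (aeval (fun i => Polynomial.C (algebraMap L A (b i)) +
        Polynomial.X * Polynomial.C (y i)) : MvPolynomial (Fin n) L →ₐ[L] Polynomial A).toRingHom =
      (PowerSeries.map (aeval y : MvPolynomial (Fin n) L →ₐ[L] A).toRingHom).comp
        (sb b).toRingHom := by
    refine MvPolynomial.ringHom_ext (fun r => ?_) fun i => ?_
    · simp only [RingHom.comp_apply, AlgHom.toRingHom_eq_coe, RingHom.coe_coe, sb_C,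
        PowerSeries.map_C, aeval_C, Polynomial.coeToPowerSeries.ringHom_apply]
      rw [Polynomial.algebraMap_apply, Polynomial.coe_C]
    · simp only [RingHom.comp_apply, AlgHom.toRingHom_eq_coe, RingHom.coe_coe, sb,
        PowerSeries.map_C, aeval_C, aeval_X, map_add, map_mul, PowerSeries.map_X,
        Polynomial.coeToPowerSeries.ringHom_apply, Polynomial.coe_C, Polynomial.coe_X]
  have h1 := congrArg (PowerSeries.coeff m) (RingHom.congr_fun h f)
  simp only [RingHom.comp_apply, AlgHom.toRingHom_eq_coe, RingHom.coe_coe,
    Polynomial.coeToPowerSeries.ringHom_apply, Polynomial.coeff_coe, PowerSeries.coeff_map] at h1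
  exact h1

theorem exists_low (b : Fin n → L) {J : MvPolynomial (Fin n) L} (hJ : J ≠ 0) :
    ∃ m ≤ J.totalDegree, PowerSeries.coeff m (sb b J) ≠ 0 ∧
      ∀ l < m, PowerSeries.coeff l (sb b J) = 0 := by
  classical
  obtain ⟨Q, hQ⟩ : ∃ Q : Polynomial (MvPolynomial (Fin n) L),
      Q = aeval (fun i => Polynomial.C (algebraMap L (MvPolynomial (Fin n) L) (b i)) +
        Polynomial.X * Polynomial.C (X i)) J := ⟨_, rfl⟩
  have hc : ∀ m, Q.coeff m = PowerSeries.coeff m (sb b J) := by
    intro m
    rw [hQ, coeff_sub b X J m, aeval_X_left_apply]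
  have hdeg : Q.natDegree ≤ J.totalDegree := by
    rw [hQ]
    refine (FOR.aeval_le (FOR.dg_natDegree (MvPolynomial (Fin n) L)) (fun c => ?_) J
      J.totalDegree 1 le_rfl _ fun v => ?_).trans (by rw [mul_one])
    · rw [Polynomial.algebraMap_apply]
      exact Polynomial.natDegree_C _
    · refine (Polynomial.natDegree_add_le _ _).trans (max_le ?_ ?_)
      · rw [Polynomial.natDegree_C]
        exact Nat.zero_le _
      · refine Polynomial.natDegree_mul_le.trans ?_
        rw [Polynomial.natDegree_C, add_zero]
        exact Polynomial.natDegree_X_le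
  have hQ0 : Q ≠ 0 := by
    intro h0
    apply hJ
    have h1 : (aeval (fun i => X i - C (b i)) :
        MvPolynomial (Fin n) L →ₐ[L] MvPolynomial (Fin n) L)
        (Polynomial.eval 1 Q) = J := by
      rw [hQ]
      have h2 : (((aeval (fun i => X i - C (b i)) :
          MvPolynomial (Fin n) L →ₐ[L] MvPolynomial (Fin n) L).toRingHom.comp
          (Polynomial.evalRingHom 1)).comp
          (aeval (fun i => Polynomial.C (algebraMap L (MvPolynomial (Fin n) L) (b i)) +
            Polynomial.X * Polynomial.C (X i)) :
            MvPolynomial (Fin n) L →ₐ[L] Polynomial (MvPolynomial (Fin n) L)).toRingHom) =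
          RingHom.id _ := by
        refine MvPolynomial.ringHom_ext (fun r => ?_) fun i => ?_
        · simp [RingHom.comp_apply, Polynomial.algebraMap_apply]
        · simp [RingHom.comp_apply]
      exact RingHom.congr_fun h2 J
    rw [h0, Polynomial.eval_zero, map_zero] at h1
    exact h1.symm
  have hex : ∃ m, PowerSeries.coeff m (sb b J) ≠ 0 := by
    refine ⟨Q.natDegree, ?_⟩
    rw [← hc]
    exact fun h => hQ0 (Polynomial.leadingCoeff_eq_zero.1 h)
  refine ⟨Nat.find hex, ?_, Nat.find_spec hex, fun l hl => ?_⟩
  · refine (Nat.find_min' hex (m := Q.natDegree) ?_).trans hdeg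
    rw [← hc]
    exact fun h => hQ0 (Polynomial.leadingCoeff_eq_zero.1 h)
  · exact not_not.1 (Nat.find_min hex hl)

theorem low_mul {P F : PowerSeries (MvPolynomial (Fin n) L)} {p : L} (hp : p ≠ 0)
    (hP : PowerSeries.constantCoeff P = C p) {m : ℕ}
    (h : ∀ l < m, PowerSeries.coeff l (P * F) = 0) :
    PowerSeries.coeff m (P * F) = C p * PowerSeries.coeff m F := by
  classical
  have hP0 : PowerSeries.coeff 0 P = C p := by
    rw [PowerSeries.coeff_zero_eq_constantCoeff_apply, hP]
  have key : ∀ l, (∀ l' < l, PowerSeries.coeff l' F = 0) →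
      PowerSeries.coeff l (P * F) = C p * PowerSeries.coeff l F := by
    intro l hl
    rw [PowerSeries.coeff_mul, Finset.sum_eq_single (0, l)]
    · rw [hP0]
    · rintro ⟨i, j⟩ hij hne
      rw [Finset.HasAntidiagonal.mem_antidiagonal] at hij
      have hj : j < l := by
        rcases Nat.eq_zero_or_pos i with h0 | h0
        · exfalso
          apply hne
          simp only at hij ⊢
          subst h0
          rw [Prod.mk.injEq]
          exact ⟨rfl, by omega⟩
        · simp only at hij
          omega
      rw [hl j hj, mul_zero]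
    · intro hn
      exfalso
      apply hn
      rw [Finset.HasAntidiagonal.mem_antidiagonal]
      simp
  have hz : ∀ l < m, PowerSeries.coeff l F = 0 := by
    intro l
    induction l using Nat.strong_induction_on with
    | _ l ih =>
      intro hl
      have h1 := key l fun l' hl' => ih l' hl' (hl'.trans hl)
      rw [h l hl] at h1
      rcases mul_eq_zero.1 h1.symm with h2 | h2
      · exact absurd ((C_eq_zero (σ := Fin n)).1 h2) hp
      · exact h2
  exact key m hz

end Pool.Agent.TWX
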