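import Pool.Agent.TWX.Row
import Pool.Agent.TWX.Low

/-!
MODULE TWX-Jac (est. 1.2 h).  The lowest term of a minor of derivatives of leaves has small
flattening rank.

PLAN.  `deg_det`: every entry `pderiv v (pd Λ f)` has total degree `≤ D` (`totalDegree_pderiv_le` or
similar; find it in Mathlib or prove it from the support), `Matrix.det_apply`, `totalDegree_sum`-type
bounds (`totalDegree_finset_sum`, `totalDegree_finset_prod`).
`jac_low`: if `M' = 0` the determinant is `1`.  In general let `Z = M * D + 1`.  For every `i` choose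
`s, R, g` from `hf i`; `row` with `Λ := J j :: Λ i` (length `≤ p + 1`, `pd_cons`) gives
`sb b (pderiv (J j) (pd (Λ i) (f i))) = P i * E i j`, `P i = sb b (∏ g)`.  The map `sb b` commutes with
`det` (`RingHom.map_det`/`AlgHom.map_det`), `Matrix.det_mul_column`: `sb b det = (∏ i, P i) * det E`.
The constant coefficient of `∏ P i` is `C p`, `p = ∏ i ∏ j eval b (g j) ≠ 0` (`constantCoeff_sb`,
`map_prod`).  Take `m ≤ totalDegree ≤ M' D ≤ M D < Z` from `exists_low`; `low_mul` and `BC.det`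
(`M'! (Z rE)^M' ≤ rk M (p+1) r c D` since `Z * rE ≥ 1`), `Cut.C_mul`.
`c_le_rk`: `c ≤ c + 1 ≤ ((c+1) Z^(c+6))^p ≤ …` for `p, M > 0`.
-/

set_option autoImplicit false

namespace Pool.Agent.TWX

open MvPolynomial
open Pool.Agent.AOI (Cut Cuts)
open Pool.Agent.ORB (pd)

variable {L : Type*} [Field L] {n : ℕ}

/-- Leaves with at most `D` factors, none of which vanishes at `b`. -/
def LeafN (b : Fin n → L) (r c D : ℕ) (f : MvPolynomial (Fin n) L) : Prop :=
  f.totalDegree ≤ D ∧ ∃ s ≤ D, ∃ (R : MvPolynomial (Fin n) L)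
    (g : Fin s → MvPolynomial (Fin n) L), Cuts r R ∧ (∀ j, Cuts c (g j)) ∧
      (∀ j, eval b (g j) ≠ 0) ∧ f = R * ∏ j, g j

theorem rE_pos {Z : ℕ} (hZ : 0 < Z) (p r c D : ℕ) : 0 < rE Z p r c D := by
  unfold rE
  have h1 : 0 < Z ^ 2 := pow_pos hZ 2
  have h2 : 0 < Z ^ (c + 6) := pow_pos hZ _
  positivity

theorem c_le_rk {M p : ℕ} (hM : 0 < M) (hp : 0 < p) (r c D : ℕ) : c ≤ rk M p r c D := by
  unfold rk
  obtain ⟨Z, hZ⟩ : ∃ Z, Z = M * D + 1 := ⟨_, rfl⟩
  rw [← hZ]
  have hZ0 : 0 < Z := by omega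
  have h1 : c ≤ (c + 1) * Z ^ (c + 6) :=
    (Nat.le_succ c).trans (Nat.le_mul_of_pos_right _ (pow_pos hZ0 _))
  have h2 : (c + 1) * Z ^ (c + 6) ≤ ((c + 1) * Z ^ (c + 6)) ^ p := Nat.le_self_pow hp.ne' _
  have h3 : ((c + 1) * Z ^ (c + 6)) ^ p ≤ (r + 1) * Z ^ 2 * ((c + 1) * Z ^ (c + 6)) ^ p :=
    Nat.le_mul_of_pos_left _ (Nat.mul_pos (Nat.succ_pos r) (pow_pos hZ0 2))
  have h4 : (r + 1) * Z ^ 2 * ((c + 1) * Z ^ (c + 6)) ^ p ≤ rE Z p r c D := by
    unfold rE
    exact Nat.le_mul_of_pos_left _ (pow_pos (Nat.succ_pos D) p)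
  have h5 : rE Z p r c D ≤ Z * rE Z p r c D := Nat.le_mul_of_pos_left _ hZ0
  have h6 : Z * rE Z p r c D ≤ (Z * rE Z p r c D) ^ M := Nat.le_self_pow hM.ne' _
  have h7 : (Z * rE Z p r c D) ^ M ≤ M.factorial * (Z * rE Z p r c D) ^ M :=
    Nat.le_mul_of_pos_left _ (Nat.factorial_pos M)
  exact h1.trans (h2.trans (h3.trans (h4.trans (h5.trans (h6.trans h7)))))

private theorem jac_deg_pderiv (j : Fin n) (p : MvPolynomial (Fin n) L) :
    (pderiv j p).totalDegree ≤ p.totalDegree := by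
  classical
  refine Finset.sup_le ?_
  intro m hm
  rw [mem_support_iff, coeff_pderiv] at hm
  have h1 : m + Finsupp.single j 1 ∈ p.support := by
    rw [mem_support_iff]
    intro h
    apply hm
    rw [h, zero_mul]
  refine le_trans ?_ (le_totalDegree h1)
  rw [Finsupp.sum_fintype _ _ (by simp), Finsupp.sum_fintype _ _ (by simp)]
  exact Finset.sum_le_sum fun i _ => by rw [Finsupp.add_apply]; omega

private theorem jac_deg_pd (Λ : List (Fin n)) (p : MvPolynomial (Fin n) L) :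
    (pd Λ p).totalDegree ≤ p.totalDegree := by
  induction Λ with
  | nil => exact le_rfl
  | cons v Λ ih =>
    rw [Pool.Agent.ORB.pd_cons]
    exact (jac_deg_pderiv v _).trans ih

theorem deg_det {M D : ℕ} (f : Fin M → MvPolynomial (Fin n) L) (hf : ∀ i, (f i).totalDegree ≤ D)
    (Λ : Fin M → List (Fin n)) (J : Fin M → Fin n) :
    (Matrix.of fun i j => pderiv (J j) (pd (Λ i) (f i))).det.totalDegree ≤ M * D := by
  classical
  rw [Matrix.det_apply']
  refine totalDegree_finsetSum_le fun σ _ => ?_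
  have h3 : ((Equiv.Perm.sign σ : ℤ) : MvPolynomial (Fin n) L) =
      C ((Equiv.Perm.sign σ : ℤ) : L) := by
    rw [map_intCast (C : L →+* MvPolynomial (Fin n) L)]
  rw [h3]
  refine (totalDegree_mul _ _).trans ?_
  rw [totalDegree_C, zero_add]
  refine (totalDegree_finsetProd _ _).trans ?_
  have h4 : ∀ i ∈ (Finset.univ : Finset (Fin M)),
      ((Matrix.of fun i j => pderiv (J j) (pd (Λ i) (f i))) (σ i) i).totalDegree ≤ D := by
    intro i _
    rw [Matrix.of_apply]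
    exact (jac_deg_pderiv _ _).trans ((jac_deg_pd _ _).trans (hf _))
  refine (Finset.sum_le_card_nsmul _ _ D h4).trans ?_
  rw [Finset.card_univ, Fintype.card_fin, smul_eq_mul]

theorem jac_low (b : Fin n → L) {M M' p r c D : ℕ} (hM : M' ≤ M)
    (f : Fin M' → MvPolynomial (Fin n) L) (hf : ∀ i, LeafN b r c D (f i))
    (Λ : Fin M' → List (Fin n)) (hΛ : ∀ i, (Λ i).length ≤ p) (J : Fin M' → Fin n)
    (h : (Matrix.of fun i j => pderiv (J j) (pd (Λ i) (f i))).det ≠ 0) :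
    ∃ m, PowerSeries.coeff m
        (sb b (Matrix.of fun i j => pderiv (J j) (pd (Λ i) (f i))).det) ≠ 0 ∧
      Cuts (rk M (p + 1) r c D) (PowerSeries.coeff m
        (sb b (Matrix.of fun i j => pderiv (J j) (pd (Λ i) (f i))).det)) := by
  classical
  have hdeg := deg_det f (fun i => (hf i).1) Λ J
  obtain ⟨m, hm, hm0, hml⟩ := exists_low b h
  refine ⟨m, hm0, ?_⟩
  obtain ⟨Z, hZ⟩ : ∃ Z, Z = M * D + 1 := ⟨_, rfl⟩
  have hZ0 : 0 < Z := by omega
  have hmZ : m < Z := by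
    have h1 : M' * D ≤ M * D := Nat.mul_le_mul_right _ hM
    omega
  choose hfd s hs R g hR hg hgb hfe using hf
  have hrow : ∀ i j, ∃ E : PowerSeries (MvPolynomial (Fin n) L),
      sb b (pderiv (J j) (pd (Λ i) (f i))) = sb b (∏ k, g i k) * E ∧
        ∀ S, BC (rE Z (p + 1) r c D) Z S E := by
    intro i j
    obtain ⟨E, hE1, hE2⟩ := row b hZ0 (hs i) (hR i) (hg i) (hgb i) (J j :: Λ i)
      (p := p + 1) (by rw [List.length_cons]; exact Nat.succ_le_succ (hΛ i))
    refine ⟨E, ?_, hE2⟩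
    rw [← hE1, Pool.Agent.ORB.pd_cons, ← hfe i]
  choose E hE1 hE2 using hrow
  have hdet : sb b (Matrix.of fun i j => pderiv (J j) (pd (Λ i) (f i))).det =
      (∏ i, sb b (∏ k, g i k)) * (Matrix.of E).det := by
    rw [AlgHom.map_det, ← Matrix.det_mul_column]
    congr 1
    ext1 i j
    rw [AlgHom.mapMatrix_apply, Matrix.map_apply, Matrix.of_apply, Matrix.of_apply,
      Matrix.of_apply, hE1]
  obtain ⟨q, hq⟩ : ∃ q : L, q = ∏ i, ∏ k, eval b (g i k) := ⟨_, rfl⟩
  have hq0 : q ≠ 0 := by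
    rw [hq]
    exact Finset.prod_ne_zero_iff.2 fun i _ => Finset.prod_ne_zero_iff.2 fun k _ => hgb i k
  have hP : PowerSeries.constantCoeff (∏ i, sb b (∏ k, g i k)) = C q := by
    rw [map_prod, hq, map_prod]
    refine Finset.prod_congr rfl fun i _ => ?_
    rw [constantCoeff_sb, map_prod]
  have hlow : PowerSeries.coeff m (sb b (Matrix.of fun i j => pderiv (J j) (pd (Λ i) (f i))).det) =
      C q * PowerSeries.coeff m (Matrix.of E).det := by
    rw [hdet]
    refine low_mul hq0 hP fun l hl => ?_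
    rw [← hdet]
    exact hml l hl
  intro S
  rw [hlow]
  refine Pool.Agent.AOI.Cut.C_mul ?_ q
  have h1 := BC.det (S := S) (Matrix.of E) (fun i j => hE2 i j S) m hmZ
  refine Pool.Agent.AOI.Cut.mono h1 ?_
  unfold rk
  rw [← hZ]
  refine Nat.mul_le_mul (Nat.factorial_le hM) (Nat.pow_le_pow_right ?_ hM)
  exact Nat.mul_pos hZ0 (rE_pos hZ0 _ _ _ _)

end Pool.Agent.TWX
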