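import Pool.Agent.TWX.Fin
import Pool.Agent.TWX.Bit

/-!
# TWX: the statement (becomes a file of Results/MP_e2be99_lc)
-/

set_option autoImplicit false

namespace Pool.Agent.TWX.AnyOrderLeaves

open MvPolynomial
open Pool.Agent.CWR (Circ Etot)

universe u

theorem result (n κ k w r c D Δ D' : ℕ) :
    (points n κ k w r c D Δ D').card ≤
      (deg n (rkT κ k w r c D Δ) * D' + 1) ^ (5 + 2 * Etot κ k w Δ) ∧
    (∀ x ∈ points n κ k w r c D Δ D', ∀ i,
      x i ≤ (2 * (deg n (rkT κ k w r c D Δ) * D') + Etot κ k w Δ + 2) ^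
        (2 ^ 4000 * (n + rkT κ k w r c D Δ + 1) ^ 500 + n + 2)) ∧
    ∀ (K : Type u) [Field K] [CharZero K] (β : ℕ → Option (Fin n → ℕ)) (N : ℕ)
      (T : Fin N → MvPolynomial (Fin n) K),
      (∀ i, Circ κ w β (Leaf r c D) Δ (T i)) →
      (∀ b : Finset (Fin N), AlgebraicIndepOn K T (b : Set (Fin N)) → b.card ≤ k) →
      ∀ g : MvPolynomial (Fin n) K, IsAlgebraic (Algebra.adjoin K (Set.range T)) g → g ≠ 0 →
        g.totalDegree ≤ D' →
        ∃ x ∈ points n κ k w r c D Δ D', eval (fun i => ((x i : ℕ) : K)) g ≠ 0 :=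
  ⟨card_pts n _ _ _, fun x hx i => bit_pts n _ _ _ x hx i,
    fun _ _ _ β _ T hT htr g hg hg0 hD => hit β T hT htr g hg hg0 hD⟩

end Pool.Agent.TWX.AnyOrderLeaves
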