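import Pool.Agent.TWX.Inv
import Pool.Agent.TWX.Der

/-!
MODULE TWX-Row (est. 1 h).  Derivatives of a leaf, divided by the product of its factors.

PLAN.  `tm_row`: `v j` the inverse of `sb b (g j)` (`exists_inv`).  For `f = R' * ∏ j, g' j` put
`E = sb b R' * ∏ j ∈ I, (sb b (g' j) * v j)`: `∏ j, sb b (g' j) = ∏ j ∈ I * ∏ j ∉ I` and
`∏ j, sb b (g j) * ∏ j ∈ I, v j = ∏ j ∉ I, sb b (g j)`.  Ranks: `sb b R'`: `r Z` (`bc_sb`); each factor
`sb b (g' j) * v j`: `Z * ((c Z) * Z^(c+3)) = c Z^(c+5)` (`BC.mul`); the product over `I`: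
`(c Z^(c+6))^|I| ≤ ((c+1) Z^(c+6))^p` (`BC.prod`, `Z ≥ 1`); in all
`Z * ((r Z) * …) ≤ (r+1) Z^2 ((c+1) Z^(c+6))^p`.
`row`: `pd_terms`, `tm_row` for every term with the bound for `p` in place of `Λ.length ≤ p` (monotone),
`E` = sum of the `E i`, `BC.sum` over `Fin ((s+1)^length)`, `(s+1)^length ≤ (D+1)^p`.
-/

set_option autoImplicit false

namespace Pool.Agent.TWX

open MvPolynomial
open Pool.Agent.AOI (Cut Cuts)
open Pool.Agent.ORB (pd)

variable {L : Type*} [Field L] {n : ℕ}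

theorem tm_row (b : Fin n → L) {s r c p Z : ℕ} (hZ : 0 < Z) {g : Fin s → MvPolynomial (Fin n) L}
    (hb : ∀ j, eval b (g j) ≠ 0) {q : ℕ} (hq : q ≤ p) (hg : ∀ j, Cuts c (g j))
    {f : MvPolynomial (Fin n) L} (hf : Tm r c g q f) :
    ∃ E : PowerSeries (MvPolynomial (Fin n) L), sb b f = sb b (∏ j, g j) * E ∧
      ∀ S, BC ((r + 1) * Z ^ 2 * ((c + 1) * Z ^ (c + 6)) ^ p) Z S E := by
  choose v hv1 hv2 using fun j => exists_inv b (hb j)
  obtain ⟨R', g', I, hR', hg', hI, hgg, rfl⟩ := hf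
  refine ⟨sb b R' * ∏ j ∈ I, (sb b (g' j) * v j), ?_, fun S => ?_⟩
  · rw [map_mul, map_prod, map_prod, ← Finset.prod_mul_prod_compl I (fun j => sb b (g' j)),
      ← Finset.prod_mul_prod_compl I (fun j => sb b (g j)), Finset.prod_mul_distrib]
    have h1 : (∏ j ∈ I, sb b (g j)) * ∏ j ∈ I, v j = 1 := by
      rw [← Finset.prod_mul_distrib]
      exact Finset.prod_eq_one fun j _ => hv1 j
    have h2 : ∏ j ∈ Iᶜ, sb b (g' j) = ∏ j ∈ Iᶜ, sb b (g j) :=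
      Finset.prod_congr rfl fun j hj => by rw [hgg j (Finset.mem_compl.1 hj)]
    rw [h2]
    calc sb b R' * ((∏ j ∈ I, sb b (g' j)) * ∏ j ∈ Iᶜ, sb b (g j))
        = sb b R' * ((∏ j ∈ I, sb b (g' j)) * ∏ j ∈ Iᶜ, sb b (g j)) *
          ((∏ j ∈ I, sb b (g j)) * ∏ j ∈ I, v j) := by rw [h1, mul_one]
      _ = _ := by ring
  · have h1 : BC (r * Z) Z S (sb b R') := bc_sb b (hR' S) Z
    have h2 : ∀ j ∈ I, BC (Z * ((c * Z) * Z ^ (c + 3))) Z S (sb b (g' j) * v j) := fun j _ =>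
      (bc_sb b (hg' j S) Z).mul (hv2 j c Z S (hg j S))
    have h3 := BC.prod I _ h2
    refine (h1.mul h3).mono ?_
    have h4 : Z * (Z * ((c * Z) * Z ^ (c + 3))) = c * Z ^ (c + 6) := by ring
    rw [h4]
    have h5 : 1 ≤ (c + 1) * Z ^ (c + 6) := Nat.mul_pos (Nat.succ_pos c) (pow_pos hZ _)
    have h6 : (c * Z ^ (c + 6)) ^ I.card ≤ ((c + 1) * Z ^ (c + 6)) ^ p :=
      (Nat.pow_le_pow_left (Nat.mul_le_mul_right _ (Nat.le_succ c)) _).trans
        (Nat.pow_le_pow_right h5 (hI.trans hq))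
    calc Z * (r * Z * (c * Z ^ (c + 6)) ^ I.card) = r * Z ^ 2 * (c * Z ^ (c + 6)) ^ I.card := by ring
      _ ≤ (r + 1) * Z ^ 2 * ((c + 1) * Z ^ (c + 6)) ^ p :=
        Nat.mul_le_mul (Nat.mul_le_mul_right _ (Nat.le_succ r)) h6

theorem row (b : Fin n → L) {s r c D p Z : ℕ} (hZ : 0 < Z) (hs : s ≤ D)
    {R : MvPolynomial (Fin n) L} {g : Fin s → MvPolynomial (Fin n) L} (hR : Cuts r R)
    (hg : ∀ j, Cuts c (g j)) (hb : ∀ j, eval b (g j) ≠ 0) (Λ : List (Fin n))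
    (hΛ : Λ.length ≤ p) :
    ∃ E : PowerSeries (MvPolynomial (Fin n) L),
      sb b (pd Λ (R * ∏ j, g j)) = sb b (∏ j, g j) * E ∧ ∀ S, BC (rE Z p r c D) Z S E := by
  obtain ⟨F, hF, hFs⟩ := pd_terms hR hg Λ
  choose E hE1 hE2 using fun i => tm_row b hZ hb hΛ hg (hF i)
  refine ⟨∑ i, E i, ?_, fun S => ?_⟩
  · rw [hFs, map_sum, Finset.mul_sum]
    exact Finset.sum_congr rfl fun i _ => hE1 i
  · refine (BC.sum Finset.univ E fun i _ => hE2 i S).mono ?_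
    rw [Finset.card_univ, Fintype.card_fin]
    unfold rE
    exact Nat.mul_le_mul_right _ ((Nat.pow_le_pow_left (Nat.add_le_add_right hs 1) _).trans
      (Nat.pow_le_pow_right (Nat.succ_pos D) hΛ))

end Pool.Agent.TWX
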