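import Pool.Agent.TWX.Bc
import Pool.Agent.AOI.CutSh

/-!
MODULE TWX-Sb.  The substitution `f ↦ f (b + z x)`.
-/

set_option autoImplicit false

namespace Pool.Agent.TWX

open MvPolynomial
open Pool.Agent.AOI (Cut Cuts)

variable {L : Type*} [Field L] {n : ℕ}

/-- `f (b + z x)` as a power series in `z`. -/
noncomputable def sb (b : Fin n → L) :
    MvPolynomial (Fin n) L →ₐ[L] PowerSeries (MvPolynomial (Fin n) L) :=
  aeval fun i => PowerSeries.C (C (b i)) + PowerSeries.X * PowerSeries.C (X i)

/-- All coefficients are polynomials in the variables in `S`. -/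
def Pur (S : Finset (Fin n)) (u : PowerSeries (MvPolynomial (Fin n) L)) : Prop :=
  ∀ l, (PowerSeries.coeff l u).vars ⊆ S

theorem sb_C (b : Fin n → L) (a : L) : sb b (C a) = PowerSeries.C (C a) := by
  unfold sb
  rw [aeval_C, PowerSeries.algebraMap_apply, algebraMap_eq]

theorem constantCoeff_sb (b : Fin n → L) (f : MvPolynomial (Fin n) L) :
    PowerSeries.constantCoeff (sb b f) = C (eval b f) := by
  induction f using MvPolynomial.induction_on with
  | C a => rw [sb_C, PowerSeries.constantCoeff_C, eval_C]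
  | add p q hp hq => rw [map_add, map_add, map_add, map_add, hp, hq]
  | mul_X p i hp =>
    rw [map_mul, map_mul, map_mul, map_mul, hp, eval_X]
    unfold sb
    rw [aeval_X, map_add, map_mul, PowerSeries.constantCoeff_C, PowerSeries.constantCoeff_X, zero_mul, add_zero]

private theorem sb_sup {S : Finset (Fin n)} {p : MvPolynomial (Fin n) L} :
    p.vars ⊆ S ↔ p ∈ supported L (S : Set (Fin n)) := by
  rw [mem_supported, Finset.coe_subset]

theorem Pur.one (S : Finset (Fin n)) : Pur S (1 : PowerSeries (MvPolynomial (Fin n) L)) := by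
  intro l
  rw [sb_sup, PowerSeries.coeff_one]
  split_ifs
  · exact Subalgebra.one_mem _
  · exact Subalgebra.zero_mem _

theorem Pur.mul {S : Finset (Fin n)} {u v : PowerSeries (MvPolynomial (Fin n) L)}
    (hu : Pur S u) (hv : Pur S v) : Pur S (u * v) := by
  intro l
  rw [sb_sup, PowerSeries.coeff_mul]
  exact Subalgebra.sum_mem _ fun q _ =>
    Subalgebra.mul_mem _ (sb_sup.1 (hu q.1)) (sb_sup.1 (hv q.2))

theorem Pur.prod {S : Finset (Fin n)} {ι : Type*} (t : Finset ι)
    (u : ι → PowerSeries (MvPolynomial (Fin n) L)) (h : ∀ j ∈ t, Pur S (u j)) :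
    Pur S (∏ j ∈ t, u j) := by
  classical
  induction t using Finset.induction_on with
  | empty =>
    rw [Finset.prod_empty]
    exact Pur.one S
  | insert a t ha ih =>
    rw [Finset.prod_insert ha]
    exact (h a (Finset.mem_insert_self a t)).mul (ih fun j hj => h j (Finset.mem_insert_of_mem hj))

theorem Pur.pow {S : Finset (Fin n)} {u : PowerSeries (MvPolynomial (Fin n) L)}
    (hu : Pur S u) (k : ℕ) : Pur S (u ^ k) := by
  induction k with
  | zero =>
    rw [pow_zero]
    exact Pur.one S
  | succ k ih =>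
    rw [pow_succ]
    exact ih.mul hu

theorem Pur.C_mul {S : Finset (Fin n)} {u : PowerSeries (MvPolynomial (Fin n) L)}
    (hu : Pur S u) (a : L) : Pur S (PowerSeries.C (C a) * u) := by
  intro l
  rw [sb_sup, PowerSeries.coeff_C_mul]
  exact Subalgebra.mul_mem _ (Subalgebra.algebraMap_mem _ a) (sb_sup.1 (hu l))

private theorem sb_C_pur {S : Finset (Fin n)} {p : MvPolynomial (Fin n) L} (hp : p.vars ⊆ S) :
    Pur S (PowerSeries.C p) := by
  intro l
  rw [sb_sup, PowerSeries.coeff_C]
  split_ifs
  · exact sb_sup.1 hp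
  · exact Subalgebra.zero_mem _

private theorem sb_X_pur (S : Finset (Fin n)) :
    Pur S (PowerSeries.X : PowerSeries (MvPolynomial (Fin n) L)) := by
  intro l
  rw [sb_sup, PowerSeries.coeff_X]
  split_ifs
  · exact Subalgebra.one_mem _
  · exact Subalgebra.zero_mem _

private theorem sb_add_pur {S : Finset (Fin n)} {u v : PowerSeries (MvPolynomial (Fin n) L)}
    (hu : Pur S u) (hv : Pur S v) : Pur S (u + v) := by
  intro l
  rw [sb_sup, map_add]
  exact Subalgebra.add_mem _ (sb_sup.1 (hu l)) (sb_sup.1 (hv l))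

/-- The algebra of the series with coefficients in the variables in `S`. -/
private def sbA (S : Finset (Fin n)) : Subalgebra L (PowerSeries (MvPolynomial (Fin n) L)) where
  carrier := {u | Pur S u}
  mul_mem' := fun hu hv => Pur.mul hu hv
  add_mem' := fun hu hv => sb_add_pur hu hv
  algebraMap_mem' := fun a => by
    show Pur S (algebraMap L (PowerSeries (MvPolynomial (Fin n) L)) a)
    rw [PowerSeries.algebraMap_apply, algebraMap_eq]
    refine sb_C_pur ?_
    rw [vars_C]
    exact Finset.empty_subset _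

theorem pur_sb (b : Fin n → L) {S : Finset (Fin n)} {f : MvPolynomial (Fin n) L}
    (hf : f.vars ⊆ S) : Pur S (sb b f) := by
  have h1 := sb_sup.1 hf
  have h2 : sb b f ∈ (supported L (S : Set (Fin n))).map (sb b) := ⟨f, h1, rfl⟩
  have h3 : (supported L (S : Set (Fin n))).map (sb b) ≤ sbA S := by
    rw [supported_eq_adjoin_X, AlgHom.map_adjoin]
    refine Algebra.adjoin_le ?_
    rintro y ⟨z, ⟨i, hi, rfl⟩, rfl⟩
    show Pur S (sb b (X i))
    unfold sb
    rw [aeval_X]
    refine sb_add_pur (sb_C_pur ?_) ((sb_X_pur S).mul (sb_C_pur ?_))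
    · rw [vars_C]
      exact Finset.empty_subset _
    · rw [vars_X]
      exact Finset.singleton_subset_iff.2 hi
  exact h3 h2

theorem bc_pur {S : Finset (Fin n)} {u v : PowerSeries (MvPolynomial (Fin n) L)}
    (hu : Pur S u) (hv : Pur Sᶜ v) (Z : ℕ) : BC Z Z S (u * v) := by
  intro l hl
  rw [PowerSeries.coeff_mul]
  have h1 := Pool.Agent.AOI.Cut.sum (S := S) (w := 1) (Finset.HasAntidiagonal.antidiagonal l)
    (fun q => PowerSeries.coeff q.1 u * PowerSeries.coeff q.2 v) (fun q _ =>
      ⟨fun _ => PowerSeries.coeff q.1 u, fun _ => PowerSeries.coeff q.2 v, fun _ => hu q.1, fun _ => hv q.2, by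
        rw [Fin.sum_univ_one]⟩)
  refine Pool.Agent.AOI.Cut.mono h1 ?_
  rw [mul_one, Finset.Nat.card_antidiagonal]
  exact hl

theorem bc_sb (b : Fin n → L) {r : ℕ} {S : Finset (Fin n)} {f : MvPolynomial (Fin n) L}
    (hf : Cut r S f) (Z : ℕ) : BC (r * Z) Z S (sb b f) := by
  obtain ⟨g, h, hg, hh, rfl⟩ := hf
  rw [map_sum]
  have h1 := BC.sum (S := S) (r := Z) (Z := Z) (Finset.univ : Finset (Fin r))
    (fun k => sb b (g k * h k)) (fun k _ => by
      rw [map_mul]
      exact bc_pur (pur_sb b (hg k)) (pur_sb b (hh k)) Z)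
  rw [Finset.card_univ, Fintype.card_fin] at h1
  exact h1

end Pool.Agent.TWX
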